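import Mathlib

set_option autoImplicit false

namespace Pool.Agent.MPafaa81

open scoped Matrix
open Filter Topology

/-- The normalised Frobenius norm `((1/(mn)) ∑ a_ij²)^(1/2)` of a real `m × n` matrix. -/
noncomputable def frobBar {m n : ℕ} (A : Matrix (Fin m) (Fin n) ℝ) : ℝ :=
  √((∑ i, ∑ j, A i j ^ 2) / ((m : ℝ) * (n : ℝ)))

/-- The nuclear norm of a real `m × n` matrix: the sum of its singular values. -/
noncomputable def nuclearNorm {m n : ℕ} (A : Matrix (Fin m) (Fin n) ℝ) : ℝ :=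
  (Matrix.toEuclideanLin A).singularValues.sum fun _ s => s

/-- Binary matrices: all entries are `0` or `1`. -/
def IsBinary {m n : ℕ} (P : Matrix (Fin m) (Fin n) ℝ) : Prop :=
  ∀ i j, P i j = 0 ∨ P i j = 1

/-- The sequence `P k` admits stable recovery of low rank matrices. -/
def AdmitsStableRecovery (m n : ℕ → ℕ) (P : ∀ k, Matrix (Fin (m k)) (Fin (n k)) ℝ) : Prop :=
  ∀ (K : ℕ) (L ε : ℝ), 0 < L → 0 < ε → ∃ δ : ℝ, 0 < δ ∧
    ∀ A B : ∀ k, Matrix (Fin (m k)) (Fin (n k)) ℝ,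
      (∀ k, (A k).rank ≤ K ∧ (B k).rank ≤ K) →
      (∀ k i j, |A k i j| ≤ L ∧ |B k i j| ≤ L) →
      limsup (fun k => frobBar ((A k - B k) ⊙ P k)) atTop ≤ δ →
      limsup (fun k => frobBar (A k - B k)) atTop ≤ ε

/-- `B` minimises the nuclear norm among the matrices that agree with `A` on the revealed
positions `P`. -/
def IsNuclearMinimiser {m n : ℕ} (A P B : Matrix (Fin m) (Fin n) ℝ) : Prop :=
  B ⊙ P = A ⊙ P ∧
    ∀ B' : Matrix (Fin m) (Fin n) ℝ, B' ⊙ P = A ⊙ P → nuclearNorm B ≤ nuclearNorm B'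

end Pool.Agent.MPafaa81
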