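import Pool.Agent.MPafaa81.Svd

set_option autoImplicit false

namespace Pool.Agent.MPafaa81

open Finset

/-- Sums of products of outer products against an orthonormal family. -/
theorem sum_outer {m n : ℕ} {ι : Type*} [Fintype ι] [DecidableEq ι] (v : ι → Fin n → ℝ)
    (hv : ∀ i j, ∑ y, v i y * v j y = if i = j then 1 else 0) (p q : ι → Fin m → ℝ) :
    ∑ x, ∑ y, (∑ i, p i x * v i y) * (∑ j, q j x * v j y) = ∑ i, ∑ x, p i x * q i x := by
  have h1 : ∀ x, ∑ y, (∑ i, p i x * v i y) * (∑ j, q j x * v j y) = ∑ i, p i x * q i x := by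
    intro x
    calc ∑ y, (∑ i, p i x * v i y) * (∑ j, q j x * v j y)
        = ∑ y, ∑ i, ∑ j, (p i x * q j x) * (v i y * v j y) := by
          refine Finset.sum_congr rfl fun y _ => ?_
          rw [Finset.sum_mul_sum]
          refine Finset.sum_congr rfl fun i _ => Finset.sum_congr rfl fun j _ => by ring
      _ = ∑ i, ∑ j, (p i x * q j x) * ∑ y, (v i y * v j y) := by
          rw [Finset.sum_comm]
          refine Finset.sum_congr rfl fun i _ => ?_
          rw [Finset.sum_comm]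
          refine Finset.sum_congr rfl fun j _ => ?_
          rw [Finset.mul_sum]
      _ = ∑ i, p i x * q i x := by
          refine Finset.sum_congr rfl fun i _ => ?_
          simp [hv]
  rw [Finset.sum_congr rfl fun x _ => h1 x, Finset.sum_comm]

/-- Bessel's inequality in coordinates. -/
theorem bessel {ι κ : Type*} [Fintype ι] [Fintype κ] [DecidableEq ι] (u : ι → κ → ℝ) (e : ι → ℝ)
    (he : ∀ i, e i ≤ 1) (hu : ∀ i j, ∑ x, u i x * u j x = if i = j then e i else 0)
    (z : κ → ℝ) : ∑ j, (∑ x, u j x * z x) ^ 2 ≤ ∑ x, z x ^ 2 := by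
  set c : ι → ℝ := fun j => ∑ x, u j x * z x with hc
  have h0 : 0 ≤ ∑ x, (z x - ∑ j, c j * u j x) ^ 2 := Finset.sum_nonneg fun x _ => sq_nonneg _
  have h1 : ∑ x, (z x - ∑ j, c j * u j x) ^ 2
      = ∑ x, z x ^ 2 - 2 * ∑ j, c j ^ 2 + ∑ j, c j ^ 2 * e j := by
    have e1 : ∀ x, (z x - ∑ j, c j * u j x) ^ 2
        = z x ^ 2 - 2 * (∑ j, c j * (u j x * z x)) + ∑ i, ∑ j, (c i * c j) * (u i x * u j x) := by
      intro x
      have : (∑ j, c j * u j x) ^ 2 = ∑ i, ∑ j, (c i * c j) * (u i x * u j x) := by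
        rw [sq, Finset.sum_mul_sum]
        refine Finset.sum_congr rfl fun i _ => Finset.sum_congr rfl fun j _ => by ring
      rw [← this]
      have h2 : ∑ j, c j * (u j x * z x) = (∑ j, c j * u j x) * z x := by
        rw [Finset.sum_mul]
        refine Finset.sum_congr rfl fun j _ => by ring
      rw [h2]; ring
    rw [Finset.sum_congr rfl fun x _ => e1 x, Finset.sum_add_distrib, Finset.sum_sub_distrib]
    congr 1
    · congr 1
      rw [← Finset.mul_sum, Finset.sum_comm]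
      congr 1
      refine Finset.sum_congr rfl fun j _ => ?_
      rw [← Finset.mul_sum, sq]
    · rw [Finset.sum_comm]
      refine Finset.sum_congr rfl fun i _ => ?_
      rw [Finset.sum_comm]
      calc ∑ j, ∑ x, (c i * c j) * (u i x * u j x)
          = ∑ j, (c i * c j) * (if i = j then e i else 0) := by
            refine Finset.sum_congr rfl fun j _ => ?_
            rw [← Finset.mul_sum, hu]
        _ = c i ^ 2 * e i := by simp [sq]
  have h3 : ∑ j, c j ^ 2 * e j ≤ ∑ j, c j ^ 2 := by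
    refine Finset.sum_le_sum fun j _ => ?_
    have := mul_le_mul_of_nonneg_left (he j) (sq_nonneg (c j))
    simpa using this
  rw [h1] at h0
  have h4 : ∑ j, (∑ x, u j x * z x) ^ 2 = ∑ j, c j ^ 2 := rfl
  rw [h4]
  linarith

/-- `Q` has operator norm at most one, in bilinear form. -/
def IsContr {m n : ℕ} (Q : Matrix (Fin m) (Fin n) ℝ) : Prop :=
  ∀ (x : Fin m → ℝ) (y : Fin n → ℝ),
    ∑ i, ∑ j, x i * Q i j * y j ≤ √(∑ i, x i ^ 2) * √(∑ j, y j ^ 2)

/-- The dual pairing is bounded by the nuclear norm. -/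
theorem pairing_le_mul {m n : ℕ} (A Q : Matrix (Fin m) (Fin n) ℝ) (c : ℝ)
    (hQ : ∀ (x : Fin m → ℝ) (y : Fin n → ℝ),
      ∑ i, ∑ j, x i * Q i j * y j ≤ c * (√(∑ i, x i ^ 2) * √(∑ j, y j ^ 2))) :
    ∑ i, ∑ j, A i j * Q i j ≤ c * nuclearNorm A := by
  obtain ⟨v, w, s, hs, hv, hw, hA, hN, _⟩ := svd A
  rw [hN]
  have h1 : ∑ i, ∑ j, A i j * Q i j = ∑ k, ∑ i, ∑ j, w k i * Q i j * v k j := by
    calc ∑ i, ∑ j, A i j * Q i j = ∑ i, ∑ j, ∑ k, w k i * Q i j * v k j := by
          refine Finset.sum_congr rfl fun i _ => Finset.sum_congr rfl fun j _ => ?_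
          rw [hA, Finset.sum_mul]
          refine Finset.sum_congr rfl fun k _ => by ring
      _ = ∑ k, ∑ i, ∑ j, w k i * Q i j * v k j := by
          rw [Finset.sum_congr rfl fun i _ => Finset.sum_comm, Finset.sum_comm]
  rw [h1, Finset.mul_sum]
  refine Finset.sum_le_sum fun k _ => ?_
  refine (hQ (w k) (v k)).trans ?_
  have e1 : ∑ i, w k i ^ 2 = s k ^ 2 := by
    have := hw k k
    simp only [if_true] at this
    rw [← this]
    exact Finset.sum_congr rfl fun i _ => sq _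
  have e2 : ∑ i, v k i ^ 2 = 1 := by
    have := hv k k
    simp only [if_true] at this
    rw [← this]
    exact Finset.sum_congr rfl fun i _ => sq _
  rw [e1, e2, Real.sqrt_one, mul_one, Real.sqrt_sq (hs k)]

theorem pairing_le {m n : ℕ} (A Q : Matrix (Fin m) (Fin n) ℝ) (hQ : IsContr Q) :
    ∑ i, ∑ j, A i j * Q i j ≤ nuclearNorm A := by
  have := pairing_le_mul A Q 1 (fun x y => by simpa using hQ x y)
  simpa using this

theorem nuclearNorm_nonneg {m n : ℕ} (A : Matrix (Fin m) (Fin n) ℝ) : 0 ≤ nuclearNorm A := by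
  obtain ⟨v, w, s, hs, hv, hw, hA, hN, _⟩ := svd A
  rw [hN]
  exact Finset.sum_nonneg fun j _ => hs j

/-- The nuclear norm is attained by a contraction of small Frobenius norm. -/
theorem exists_polar {m n : ℕ} (A : Matrix (Fin m) (Fin n) ℝ) :
    ∃ Q : Matrix (Fin m) (Fin n) ℝ, IsContr Q ∧ ∑ i, ∑ j, A i j * Q i j = nuclearNorm A ∧
      ∑ i, ∑ j, Q i j ^ 2 ≤ A.rank := by
  classical
  obtain ⟨v, w, s, hs, hv, hw, hA, hN, hr⟩ := svd A
  set u : Fin n → Fin m → ℝ := fun j x => w j x / s j with hu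
  set e : Fin n → ℝ := fun j => if s j ≠ 0 then 1 else 0 with he
  have huu : ∀ i j, ∑ x, u i x * u j x = if i = j then e i else 0 := by
    intro i j
    have h1 : ∑ x, u i x * u j x = (∑ x, w i x * w j x) / (s i * s j) := by
      rw [Finset.sum_div]
      refine Finset.sum_congr rfl fun x _ => ?_
      simp only [hu]; rw [div_mul_div_comm]
    rw [h1, hw]
    by_cases hij : i = j
    · subst hij
      by_cases h0 : s i = 0
      · simp [he, h0]
      · simp only [he, if_true, ne_eq, h0, not_false_eq_true]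
        field_simp
    · simp [hij]
  refine ⟨fun x y => ∑ j, u j x * v j y, ?_, ?_, ?_⟩
  · intro z y
    have h1 : ∑ i, ∑ j, z i * (∑ k, u k i * v k j) * y j
        = ∑ k, (∑ i, u k i * z i) * (∑ j, v k j * y j) := by
      calc ∑ i, ∑ j, z i * (∑ k, u k i * v k j) * y j
          = ∑ i, ∑ j, ∑ k, (u k i * z i) * (v k j * y j) := by
            refine Finset.sum_congr rfl fun i _ => Finset.sum_congr rfl fun j _ => ?_
            rw [Finset.mul_sum, Finset.sum_mul]
            refine Finset.sum_congr rfl fun k _ => by ring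
        _ = ∑ k, ∑ i, ∑ j, (u k i * z i) * (v k j * y j) := by
            rw [Finset.sum_congr rfl fun i _ => Finset.sum_comm, Finset.sum_comm]
        _ = ∑ k, (∑ i, u k i * z i) * (∑ j, v k j * y j) := by
            refine Finset.sum_congr rfl fun k _ => ?_
            rw [Finset.sum_mul_sum]
    rw [h1]
    refine (Real.sum_mul_le_sqrt_mul_sqrt _ _ _).trans ?_
    exact mul_le_mul
      (Real.sqrt_le_sqrt (bessel u e (fun i => by simp only [he]; split_ifs <;> norm_num) huu z))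
      (Real.sqrt_le_sqrt (bessel v (fun _ => 1) (fun i => le_refl _) hv y))
      (Real.sqrt_nonneg _) (Real.sqrt_nonneg _)
  · rw [hN]
    have h1 : ∑ i, ∑ j, A i j * (∑ k, u k i * v k j)
        = ∑ i, ∑ j, (∑ k, w k i * v k j) * (∑ k, u k i * v k j) := by
      refine Finset.sum_congr rfl fun i _ => Finset.sum_congr rfl fun j _ => ?_
      rw [hA]
    rw [h1, sum_outer v hv w u]
    refine Finset.sum_congr rfl fun i _ => ?_
    have h2 : ∑ x, w i x * u i x = (∑ x, w i x * w i x) / s i := by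
      rw [Finset.sum_div]
      refine Finset.sum_congr rfl fun x _ => ?_
      simp only [hu]; ring
    rw [h2, hw]
    by_cases h0 : s i = 0
    · simp [h0]
    · simp only [if_true]; field_simp
  · have h1 : ∑ i, ∑ j, (∑ k, u k i * v k j) ^ 2
        = ∑ i, ∑ j, (∑ k, u k i * v k j) * (∑ k, u k i * v k j) := by
      refine Finset.sum_congr rfl fun i _ => Finset.sum_congr rfl fun j _ => sq _
    have h2 : ∑ i, ∑ x, u i x * u i x = (A.rank : ℝ) := by
      rw [← hr]
      rw [Finset.sum_congr rfl fun i _ => huu i i, Finset.card_filter]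
      simp only [if_true, he]
      push_cast
      rfl
    rw [h1, sum_outer v hv u u, h2]

theorem nuclearNorm_add_le {m n : ℕ} (A B : Matrix (Fin m) (Fin n) ℝ) :
    nuclearNorm (A + B) ≤ nuclearNorm A + nuclearNorm B := by
  obtain ⟨Q, hQ, hAQ, _⟩ := exists_polar (A + B)
  rw [← hAQ]
  have h1 : ∑ i, ∑ j, (A + B) i j * Q i j = ∑ i, ∑ j, A i j * Q i j + ∑ i, ∑ j, B i j * Q i j := by
    rw [← Finset.sum_add_distrib]
    refine Finset.sum_congr rfl fun i _ => ?_
    rw [← Finset.sum_add_distrib]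
    refine Finset.sum_congr rfl fun j _ => ?_
    rw [Matrix.add_apply, add_mul]
  rw [h1]
  exact add_le_add (pairing_le A Q hQ) (pairing_le B Q hQ)

theorem IsContr.neg {m n : ℕ} {Q : Matrix (Fin m) (Fin n) ℝ} (hQ : IsContr Q) :
    IsContr (-Q) := by
  intro x y
  have := hQ (-x) y
  simp only [Pi.neg_apply, neg_mul, even_two, Even.neg_pow] at this
  simpa using this

theorem nuclearNorm_neg {m n : ℕ} (A : Matrix (Fin m) (Fin n) ℝ) :
    nuclearNorm (-A) = nuclearNorm A := by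
  have key : ∀ B : Matrix (Fin m) (Fin n) ℝ, nuclearNorm (-B) ≤ nuclearNorm B := by
    intro B
    obtain ⟨Q, hQ, hAQ, _⟩ := exists_polar (-B)
    rw [← hAQ]
    have := pairing_le B (-Q) hQ.neg
    simpa using this
  apply le_antisymm (key A)
  have := key (-A)
  rwa [neg_neg] at this

theorem nuclearNorm_sub_le {m n : ℕ} (A B : Matrix (Fin m) (Fin n) ℝ) :
    nuclearNorm (A - B) ≤ nuclearNorm A + nuclearNorm B := by
  rw [sub_eq_add_neg]
  refine (nuclearNorm_add_le _ _).trans ?_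
  rw [nuclearNorm_neg]

theorem IsContr.transpose {m n : ℕ} {Q : Matrix (Fin m) (Fin n) ℝ} (hQ : IsContr Q) :
    IsContr Q.transpose := by
  intro x y
  have := hQ y x
  rw [Finset.sum_comm, mul_comm]
  refine le_trans (le_of_eq ?_) this
  refine Finset.sum_congr rfl fun i _ => Finset.sum_congr rfl fun j _ => ?_
  rw [Matrix.transpose_apply]; ring

theorem nuclearNorm_transpose {m n : ℕ} (A : Matrix (Fin m) (Fin n) ℝ) :
    nuclearNorm A.transpose = nuclearNorm A := by
  have key : ∀ {p q : ℕ} (B : Matrix (Fin p) (Fin q) ℝ),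
      nuclearNorm B.transpose ≤ nuclearNorm B := by
    intro p q B
    obtain ⟨Q, hQ, hAQ, _⟩ := exists_polar B.transpose
    rw [← hAQ]
    have := pairing_le B Q.transpose hQ.transpose
    refine le_trans (le_of_eq ?_) this
    rw [Finset.sum_comm]
    rfl
  apply le_antisymm (key A)
  have := key A.transpose
  rwa [Matrix.transpose_transpose] at this

/-- Cauchy-Schwarz for double sums. -/
theorem sum_sum_mul_le {m n : ℕ} (A B : Matrix (Fin m) (Fin n) ℝ) :
    ∑ i, ∑ j, A i j * B i j ≤ √(∑ i, ∑ j, A i j ^ 2) * √(∑ i, ∑ j, B i j ^ 2) := by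
  have h := Real.sum_mul_le_sqrt_mul_sqrt (Finset.univ : Finset (Fin m × Fin n))
    (fun p => A p.1 p.2) (fun p => B p.1 p.2)
  simpa only [Fintype.sum_prod_type] using h

theorem nuclearNorm_sq_le {m n : ℕ} (A : Matrix (Fin m) (Fin n) ℝ) :
    nuclearNorm A ≤ √(A.rank : ℝ) * √(∑ i, ∑ j, A i j ^ 2) := by
  obtain ⟨Q, hQ, hAQ, hQ2⟩ := exists_polar A
  rw [← hAQ]
  refine (sum_sum_mul_le A Q).trans ?_
  rw [mul_comm]
  exact mul_le_mul_of_nonneg_right (Real.sqrt_le_sqrt hQ2) (Real.sqrt_nonneg _)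

theorem bilin_le_frob {m n : ℕ} (D : Matrix (Fin m) (Fin n) ℝ) (x : Fin m → ℝ) (y : Fin n → ℝ) :
    ∑ i, ∑ j, x i * D i j * y j
      ≤ √(∑ i, ∑ j, D i j ^ 2) * (√(∑ i, x i ^ 2) * √(∑ j, y j ^ 2)) := by
  have h := sum_sum_mul_le D (fun i j => x i * y j)
  have h1 : ∑ i, ∑ j, (x i * y j) ^ 2 = (∑ i, x i ^ 2) * (∑ j, y j ^ 2) := by
    rw [Finset.sum_mul_sum]
    refine Finset.sum_congr rfl fun i _ => Finset.sum_congr rfl fun j _ => by ring
  rw [h1, Real.sqrt_mul (Finset.sum_nonneg fun i _ => sq_nonneg _)] at h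
  refine le_trans (le_of_eq ?_) h
  refine Finset.sum_congr rfl fun i _ => Finset.sum_congr rfl fun j _ => by ring

/-- Deleting rows: the square of the nuclear norm drops by at least the squared Frobenius norm
of the deleted rows. -/
theorem nuclearNorm_rows {m n : ℕ} (M : Matrix (Fin m) (Fin n) ℝ) (R : Finset (Fin m)) :
    nuclearNorm (Matrix.of fun i j => if i ∈ R then 0 else M i j) ^ 2
      + ∑ i, ∑ j, (if i ∈ R then M i j else 0) ^ 2 ≤ nuclearNorm M ^ 2 := by
  set B : Matrix (Fin m) (Fin n) ℝ := Matrix.of fun i j => if i ∈ R then 0 else M i j with hB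
  set D : Matrix (Fin m) (Fin n) ℝ := Matrix.of fun i j => if i ∈ R then M i j else 0 with hD
  set d2 : ℝ := ∑ i, ∑ j, D i j ^ 2 with hd2
  have hd0 : 0 ≤ d2 := Finset.sum_nonneg fun i _ => Finset.sum_nonneg fun j _ => sq_nonneg _
  have hdd : ∑ i, ∑ j, (if i ∈ R then M i j else 0) ^ 2 = d2 := rfl
  rw [hdd]
  set b : ℝ := nuclearNorm B with hb
  have hb0 : 0 ≤ b := nuclearNorm_nonneg B
  obtain ⟨Q1, hQ1, hBQ, _⟩ := exists_polar B
  set Q : Matrix (Fin m) (Fin n) ℝ :=
    Matrix.of fun i j => b * (if i ∈ R then 0 else Q1 i j) + D i j with hQ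
  have hbil : ∀ (x : Fin m → ℝ) (y : Fin n → ℝ),
      ∑ i, ∑ j, x i * Q i j * y j ≤ √(b ^ 2 + d2) * (√(∑ i, x i ^ 2) * √(∑ j, y j ^ 2)) := by
    intro x y
    set x1 : Fin m → ℝ := fun i => if i ∈ R then 0 else x i with hx1
    set x2 : Fin m → ℝ := fun i => if i ∈ R then x i else 0 with hx2
    have e1 : ∑ i, ∑ j, x i * Q i j * y j
        = b * ∑ i, ∑ j, x1 i * Q1 i j * y j + ∑ i, ∑ j, x2 i * D i j * y j := by
      rw [Finset.mul_sum, ← Finset.sum_add_distrib]
      refine Finset.sum_congr rfl fun i _ => ?_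
      rw [Finset.mul_sum, ← Finset.sum_add_distrib]
      refine Finset.sum_congr rfl fun j _ => ?_
      by_cases h : i ∈ R
      · simp [hQ, hD, hx1, hx2, h]
      · simp [hQ, hD, hx1, hx2, h]; ring
    have e2 : ∑ i, x i ^ 2 = ∑ i, x1 i ^ 2 + ∑ i, x2 i ^ 2 := by
      rw [← Finset.sum_add_distrib]
      refine Finset.sum_congr rfl fun i _ => ?_
      by_cases h : i ∈ R <;> simp [hx1, hx2, h]
    have h1 := hQ1 x1 y
    have h2 := bilin_le_frob D x2 y
    have n1 : 0 ≤ ∑ i, x1 i ^ 2 := Finset.sum_nonneg fun i _ => sq_nonneg _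
    have n2 : 0 ≤ ∑ i, x2 i ^ 2 := Finset.sum_nonneg fun i _ => sq_nonneg _
    have h3 : b * √(∑ i, x1 i ^ 2) + √d2 * √(∑ i, x2 i ^ 2)
        ≤ √(b ^ 2 + d2) * √(∑ i, x i ^ 2) := by
      have s1 := Real.sq_sqrt n1
      have s2 := Real.sq_sqrt n2
      have s3 := Real.sq_sqrt hd0
      have e4 : √(b ^ 2 + d2) * √(∑ i, x i ^ 2) = √((b ^ 2 + d2) * ∑ i, x i ^ 2) :=
        (Real.sqrt_mul (by positivity) _).symm
      rw [e4]
      apply Real.le_sqrt_of_sq_le
      rw [e2]
      set p := √(∑ i, x1 i ^ 2)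
      set q := √(∑ i, x2 i ^ 2)
      set r := √d2
      rw [← s1, ← s2, ← s3]
      nlinarith [sq_nonneg (b * q - r * p)]
    rw [e1]
    calc b * ∑ i, ∑ j, x1 i * Q1 i j * y j + ∑ i, ∑ j, x2 i * D i j * y j
        ≤ b * (√(∑ i, x1 i ^ 2) * √(∑ j, y j ^ 2))
          + √d2 * (√(∑ i, x2 i ^ 2) * √(∑ j, y j ^ 2)) := by
          refine add_le_add (mul_le_mul_of_nonneg_left h1 hb0) h2
      _ = (b * √(∑ i, x1 i ^ 2) + √d2 * √(∑ i, x2 i ^ 2)) * √(∑ j, y j ^ 2) := by ring
      _ ≤ (√(b ^ 2 + d2) * √(∑ i, x i ^ 2)) * √(∑ j, y j ^ 2) :=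
          mul_le_mul_of_nonneg_right h3 (Real.sqrt_nonneg _)
      _ = _ := by ring
  have hpair := pairing_le_mul M Q _ hbil
  have e3 : ∑ i, ∑ j, M i j * Q i j = b ^ 2 + d2 := by
    have : ∑ i, ∑ j, M i j * Q i j = b * ∑ i, ∑ j, B i j * Q1 i j + ∑ i, ∑ j, D i j ^ 2 := by
      rw [Finset.mul_sum, ← Finset.sum_add_distrib]
      refine Finset.sum_congr rfl fun i _ => ?_
      rw [Finset.mul_sum, ← Finset.sum_add_distrib]
      refine Finset.sum_congr rfl fun j _ => ?_
      by_cases h : i ∈ R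
      · simp [hQ, hD, hB, h]; ring
      · simp [hQ, hD, hB, h]; ring
    rw [this, hBQ]; ring
  rw [e3] at hpair
  have hN0 := nuclearNorm_nonneg M
  have ht0 : 0 ≤ b ^ 2 + d2 := by positivity
  generalize nuclearNorm M = N at *
  generalize b ^ 2 + d2 = t at *
  rcases eq_or_lt_of_le ht0 with h0 | hpos
  · rw [← h0]; positivity
  · have hst : 0 < √t := Real.sqrt_pos.mpr hpos
    have h5 : √t * √t = t := Real.mul_self_sqrt ht0
    have h6 : √t ≤ N := by
      have h7 : √t * √t ≤ √t * N := by rw [h5]; exact hpair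
      exact le_of_mul_le_mul_left h7 hst
    calc t = √t ^ 2 := by rw [sq]; exact h5.symm
      _ ≤ N ^ 2 := by gcongr

/-- Deleting columns. -/
theorem nuclearNorm_cols {m n : ℕ} (M : Matrix (Fin m) (Fin n) ℝ) (C : Finset (Fin n)) :
    nuclearNorm (Matrix.of fun i j => if j ∈ C then 0 else M i j) ^ 2
      + ∑ i, ∑ j, (if j ∈ C then M i j else 0) ^ 2 ≤ nuclearNorm M ^ 2 := by
  have h := nuclearNorm_rows M.transpose C
  rw [nuclearNorm_transpose] at h
  have h1 : nuclearNorm (Matrix.of fun i j => if i ∈ C then 0 else M.transpose i j)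
      = nuclearNorm (Matrix.of fun i j => if j ∈ C then 0 else M i j) := by
    rw [← nuclearNorm_transpose]
    rfl
  rw [h1, Finset.sum_comm] at h
  exact h

/-- Deleting rows and columns. -/
theorem nuclearNorm_delete {m n : ℕ} (M : Matrix (Fin m) (Fin n) ℝ) (R : Finset (Fin m))
    (C : Finset (Fin n)) :
    nuclearNorm (Matrix.of fun i j => if i ∈ R ∨ j ∈ C then 0 else M i j) ^ 2
      + ∑ i, ∑ j, (if i ∈ R ∨ j ∈ C then M i j else 0) ^ 2 ≤ nuclearNorm M ^ 2 := by
  have h1 := nuclearNorm_rows M R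
  have h2 := nuclearNorm_cols (Matrix.of fun i j => if i ∈ R then 0 else M i j) C
  have e1 : (Matrix.of fun i j => if j ∈ C then 0
        else (Matrix.of fun i j => if i ∈ R then 0 else M i j) i j)
      = (Matrix.of fun i j => if i ∈ R ∨ j ∈ C then 0 else M i j) := by
    ext i j
    by_cases hi : i ∈ R <;> by_cases hj : j ∈ C <;> simp [hi, hj]
  rw [e1] at h2
  have e2 : ∑ i, ∑ j, (if i ∈ R ∨ j ∈ C then M i j else 0) ^ 2
      = ∑ i, ∑ j, (if i ∈ R then M i j else 0) ^ 2
        + ∑ i, ∑ j, (if j ∈ C then (Matrix.of fun i j => if i ∈ R then 0 else M i j) i j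
          else 0) ^ 2 := by
    rw [← Finset.sum_add_distrib]
    refine Finset.sum_congr rfl fun i _ => ?_
    rw [← Finset.sum_add_distrib]
    refine Finset.sum_congr rfl fun j _ => ?_
    by_cases hi : i ∈ R <;> by_cases hj : j ∈ C <;> simp [hi, hj]
  rw [e2]
  linarith

end Pool.Agent.MPafaa81
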