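import Pool.Agent.MPafaa81.Step

set_option autoImplicit false

namespace Pool.Agent.MPafaa81

open Finset

/-- Pigeonhole over disjoint blocks of values. -/
theorem exists_block {ι : Type*} [Fintype ι] (t : ι → ℝ) (ht : ∀ j, 0 ≤ t j) (C θ : ℝ)
    (htC : ∑ j, t j ≤ C) (L : ℕ → ℝ) (hL : Antitone L) (J : ℕ) (hJ : C < J * θ) :
    ∃ i < J, ∑ j ∈ univ.filter (fun j => L (i + 1) < t j ∧ t j ≤ L i), t j ≤ θ := by
  classical
  by_contra hcon
  push Not at hcon
  have h1 : (J : ℝ) * θ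
      ≤ ∑ i ∈ range J, ∑ j ∈ univ.filter (fun j => L (i + 1) < t j ∧ t j ≤ L i), t j := by
    calc (J : ℝ) * θ = ∑ i ∈ range J, θ := by
          rw [Finset.sum_const, Finset.card_range, nsmul_eq_mul]
      _ ≤ _ := Finset.sum_le_sum fun i hi => (hcon i (Finset.mem_range.mp hi)).le
  have h2 : ∑ i ∈ range J, ∑ j ∈ univ.filter (fun j => L (i + 1) < t j ∧ t j ≤ L i), t j
      ≤ ∑ j, t j := by
    rw [← Finset.sum_biUnion]
    · exact Finset.sum_le_sum_of_subset_of_nonneg (Finset.subset_univ _) fun i _ _ => ht i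
    · have key : ∀ i i' : ℕ, i < i' →
          Disjoint (univ.filter (fun j => L (i + 1) < t j ∧ t j ≤ L i))
            (univ.filter (fun j => L (i' + 1) < t j ∧ t j ≤ L i')) := by
        intro i i' hii
        rw [Finset.disjoint_left]
        intro j h1 h2
        rw [Finset.mem_filter] at h1 h2
        have := hL (show i + 1 ≤ i' from hii)
        linarith [h1.2.1, h2.2.2]
      intro i _ i' _ hne
      rcases lt_or_gt_of_ne hne with h | h
      · exact key i i' h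
      · exact (key i' i h).symm
  linarith

theorem key (C ε : ℝ) (hC : 0 < C) (hε : 0 < ε) (δ : ℝ → ℝ) (hδ : ∀ e, 0 < e → 0 < δ e) :
    ∃ E : Finset ℝ, (∀ e ∈ E, 0 < e) ∧ ∀ (m n : ℕ) (_ : 0 < m) (_ : 0 < n)
      (P Z : Matrix (Fin m) (Fin n) ℝ), (∀ i j, P i j ≠ 0 → Z i j = 0) →
      (∀ e ∈ E, ∀ (S : Finset (Fin m)) (T : Finset (Fin n)),
        e * (m * n) ≤ (S.card : ℝ) * T.card →
        δ e * (m * n) ≤ (((S ×ˢ T).filter fun p => P p.1 p.2 ≠ 0).card : ℝ)) →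
      nuclearNorm Z ≤ C * √((m : ℝ) * n) →
      ∃ (R : Finset (Fin m)) (C' : Finset (Fin n)), (R.card : ℝ) ≤ ε * m ∧ (C'.card : ℝ) ≤ ε * n ∧
        ∑ x, ∑ y, (if x ∈ R ∨ y ∈ C' then 0 else Z x y) ^ 2 ≤ ε ^ 2 * (m * n) := by
  classical
  choose! fe fl h1 h2 h3 h4 using step C ε hC hε δ hδ
  set L : ℕ → ℝ := fun i => fl^[i] 1 with hL
  have hL0 : ∀ i, 0 < L i := by
    intro i
    induction i with
    | zero => simp [hL]
    | succ i ih =>
      have : L (i + 1) = fl (L i) := by simp only [hL]; exact Function.iterate_succ_apply' fl i 1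
      rw [this]; exact h2 _ ih
  have hLs : ∀ i, L (i + 1) = fl (L i) := by
    intro i; simp only [hL]; exact Function.iterate_succ_apply' fl i 1
  have hanti : Antitone L := antitone_nat_of_succ_le fun i => by
    rw [hLs]; exact h3 _ (hL0 i)
  set θ : ℝ := ε ^ 2 / 24 with hθ
  have hθ0 : 0 < θ := by positivity
  set J : ℕ := ⌈C / θ⌉₊ + 1 with hJ
  have hJθ : C < J * θ := by
    have : C / θ < J := by
      rw [hJ]; push_cast; linarith [Nat.le_ceil (C / θ)]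
    rwa [div_lt_iff₀ hθ0] at this
  refine ⟨(range J).image (fun i => fe (L i)), ?_, ?_⟩
  · intro e he
    rw [Finset.mem_image] at he
    obtain ⟨i, _, rfl⟩ := he
    exact h1 _ (hL0 i)
  · intro m n hm hn P Z hPZ hrect hN
    obtain ⟨a, b, t, hB⟩ := exists_balanced hm hn Z
    have hm' : (0 : ℝ) < m := by exact_mod_cast hm
    have hn' : (0 : ℝ) < n := by exact_mod_cast hn
    have htC : ∑ j, t j ≤ C := by
      rw [← hB.tot] at hN
      exact le_of_mul_le_mul_right hN (Real.sqrt_pos.mpr (by positivity))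
    obtain ⟨i, hi, hblock⟩ := exists_block t hB.nonneg C θ htC L hanti J hJθ
    rw [hLs] at hblock
    exact h4 (L i) (hL0 i) m n hm hn P Z a b t hB hPZ
      (hrect _ (Finset.mem_image.mpr ⟨i, Finset.mem_range.mpr hi, rfl⟩)) htC hblock

theorem final_bound {m n : ℕ} (A Ah : Matrix (Fin m) (Fin n) ℝ) (K : ℕ) (L ε : ℝ)
    (hL : 0 ≤ L) (hε : 0 ≤ ε) (hK : A.rank ≤ K) (hA : ∀ i j, |A i j| ≤ L)
    (hN : nuclearNorm Ah ≤ nuclearNorm A) (R : Finset (Fin m)) (C : Finset (Fin n))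
    (hR : (R.card : ℝ) ≤ ε * m) (hC : (C.card : ℝ) ≤ ε * n)
    (hZ : ∑ x, ∑ y, (if x ∈ R ∨ y ∈ C then 0 else (Ah - A) x y) ^ 2 ≤ ε ^ 2 * (m * n)) :
    ∑ x, ∑ y, (Ah - A) x y ^ 2
      ≤ (4 * K * L * √(2 * ε * L ^ 2 + ε ^ 2) + 2 * (2 * ε * L ^ 2 + ε ^ 2)) * (m * n) := by
  classical
  set μ2 : ℝ := (m : ℝ) * n with hμ2
  have hμ0 : 0 ≤ μ2 := by positivity
  set ρ2 : ℝ := 2 * ε * L ^ 2 + ε ^ 2 with hρ2
  have hρ0 : 0 ≤ ρ2 := by positivity
  set B : Matrix (Fin m) (Fin n) ℝ := Matrix.of fun i j => if i ∈ R ∨ j ∈ C then 0 else Ah i j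
    with hB
  set D : Matrix (Fin m) (Fin n) ℝ := Matrix.of fun i j => if i ∈ R ∨ j ∈ C then Ah i j else 0
    with hD
  set G : Matrix (Fin m) (Fin n) ℝ := A - B with hG
  have hdel := nuclearNorm_delete Ah R C
  have hdel' : nuclearNorm B ^ 2 + ∑ i, ∑ j, D i j ^ 2 ≤ nuclearNorm Ah ^ 2 := hdel
  set NA := nuclearNorm A with hNA
  set NB := nuclearNorm B with hNB
  have hNA0 : 0 ≤ NA := nuclearNorm_nonneg A
  have hNB0 : 0 ≤ NB := nuclearNorm_nonneg B
  have hNh0 : 0 ≤ nuclearNorm Ah := nuclearNorm_nonneg Ah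
  have hAF : ∑ i, ∑ j, A i j ^ 2 ≤ L ^ 2 * μ2 := by
    calc ∑ i, ∑ j, A i j ^ 2 ≤ ∑ i : Fin m, ∑ j : Fin n, L ^ 2 := by
          refine Finset.sum_le_sum fun i _ => Finset.sum_le_sum fun j _ => ?_
          rw [← sq_abs]
          have := hA i j
          gcongr
      _ = L ^ 2 * μ2 := by
          simp only [Finset.sum_const, Finset.card_univ, Fintype.card_fin, nsmul_eq_mul]; ring
  -- Frobenius norm of G
  have hGF : ∑ i, ∑ j, G i j ^ 2 ≤ ρ2 * μ2 := by
    have hpt : ∀ i j, G i j ^ 2 ≤ ((if i ∈ R then L ^ 2 else 0) + (if j ∈ C then L ^ 2 else 0))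
        + (if i ∈ R ∨ j ∈ C then 0 else (Ah - A) i j) ^ 2 := by
      intro i j
      have hAij : A i j ^ 2 ≤ L ^ 2 := by
        rw [← sq_abs]; have := hA i j; gcongr
      have hL2 : 0 ≤ L ^ 2 := sq_nonneg L
      by_cases hi : i ∈ R <;> by_cases hj : j ∈ C
      · simp [hG, hB, hi, hj]; linarith
      · simp [hG, hB, hi, hj]; linarith
      · simp [hG, hB, hi, hj]; linarith
      · simp [hG, hB, hi, hj]
        have : (A i j - Ah i j) ^ 2 = (Ah i j - A i j) ^ 2 := by ring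
        rw [this]
    calc ∑ i, ∑ j, G i j ^ 2
        ≤ ∑ i, ∑ j, (((if i ∈ R then L ^ 2 else 0) + (if j ∈ C then L ^ 2 else 0))
          + (if i ∈ R ∨ j ∈ C then 0 else (Ah - A) i j) ^ 2) :=
          Finset.sum_le_sum fun i _ => Finset.sum_le_sum fun j _ => hpt i j
      _ = ((R.card : ℝ) * n + m * (C.card : ℝ)) * L ^ 2
          + ∑ i, ∑ j, (if i ∈ R ∨ j ∈ C then 0 else (Ah - A) i j) ^ 2 := by
          simp only [Finset.sum_add_distrib]
          congr 1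
          have e1 : ∑ i : Fin m, ∑ j : Fin n, (if i ∈ R then L ^ 2 else 0)
              = (R.card : ℝ) * n * L ^ 2 := by
            rw [Finset.sum_comm]
            simp only [Finset.sum_ite_mem, Finset.univ_inter, Finset.sum_const, nsmul_eq_mul,
              Finset.card_univ, Fintype.card_fin]
            ring
          have e2 : ∑ i : Fin m, ∑ j : Fin n, (if j ∈ C then L ^ 2 else 0)
              = m * (C.card : ℝ) * L ^ 2 := by
            simp only [Finset.sum_ite_mem, Finset.univ_inter, Finset.sum_const, nsmul_eq_mul,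
              Finset.card_univ, Fintype.card_fin]
            ring
          rw [e1, e2]; ring
      _ ≤ ρ2 * μ2 := by
          have hm0 : (0 : ℝ) ≤ m := Nat.cast_nonneg _
          have hn0 : (0 : ℝ) ≤ n := Nat.cast_nonneg _
          have i1 : (R.card : ℝ) * n ≤ ε * m * n := mul_le_mul_of_nonneg_right hR hn0
          have i2 : (m : ℝ) * (C.card : ℝ) ≤ m * (ε * n) := mul_le_mul_of_nonneg_left hC hm0
          have i3 : ((R.card : ℝ) * n + m * (C.card : ℝ)) * L ^ 2 ≤ (2 * ε * μ2) * L ^ 2 := by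
            apply mul_le_mul_of_nonneg_right _ (sq_nonneg L)
            rw [hμ2]; linarith
          calc _ ≤ (2 * ε * μ2) * L ^ 2 + ε ^ 2 * μ2 := add_le_add i3 hZ
            _ = ρ2 * μ2 := by rw [hρ2]; ring
  -- lower bound for the nuclear norm of B
  obtain ⟨Q, hQ, hAQ, hQ2⟩ := exists_polar A
  have hlow : NA - √(K : ℝ) * √(ρ2 * μ2) ≤ NB := by
    have h1 := pairing_le B Q hQ
    have h2 : ∑ i, ∑ j, B i j * Q i j = NA - ∑ i, ∑ j, G i j * Q i j := by
      rw [hNA, ← hAQ, ← Finset.sum_sub_distrib]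
      refine Finset.sum_congr rfl fun i _ => ?_
      rw [← Finset.sum_sub_distrib]
      refine Finset.sum_congr rfl fun j _ => ?_
      rw [hG, Matrix.sub_apply]; ring
    have h3 : ∑ i, ∑ j, G i j * Q i j ≤ √(K : ℝ) * √(ρ2 * μ2) := by
      refine (sum_sum_mul_le G Q).trans ?_
      rw [mul_comm]
      refine mul_le_mul (Real.sqrt_le_sqrt ?_) (Real.sqrt_le_sqrt hGF) (Real.sqrt_nonneg _)
        (Real.sqrt_nonneg _)
      refine hQ2.trans ?_
      exact_mod_cast hK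
    linarith
  have hupA : NA ≤ √(K : ℝ) * √(L ^ 2 * μ2) := by
    refine (nuclearNorm_sq_le A).trans ?_
    refine mul_le_mul (Real.sqrt_le_sqrt ?_) (Real.sqrt_le_sqrt hAF) (Real.sqrt_nonneg _)
      (Real.sqrt_nonneg _)
    exact_mod_cast hK
  -- the deleted part is small
  have hDF : ∑ i, ∑ j, D i j ^ 2 ≤ 2 * K * L * √ρ2 * μ2 := by
    have k1 : ∑ i, ∑ j, D i j ^ 2 ≤ NA ^ 2 - NB ^ 2 := by
      have : nuclearNorm Ah ^ 2 ≤ NA ^ 2 := by gcongr
      linarith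
    have k2 : NB ≤ NA := by
      have hD0 : 0 ≤ ∑ i, ∑ j, D i j ^ 2 :=
        Finset.sum_nonneg fun i _ => Finset.sum_nonneg fun j _ => sq_nonneg _
      have : NB ^ 2 ≤ NA ^ 2 := by linarith
      exact le_of_sq_le_sq this hNA0
    have k3 : NA ^ 2 - NB ^ 2 ≤ (√(K : ℝ) * √(ρ2 * μ2)) * (2 * (√(K : ℝ) * √(L ^ 2 * μ2))) := by
      have : NA ^ 2 - NB ^ 2 = (NA - NB) * (NA + NB) := by ring
      rw [this]
      refine mul_le_mul (by linarith) (by linarith) (by linarith) (by positivity)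
    have k4 : (√(K : ℝ) * √(ρ2 * μ2)) * (2 * (√(K : ℝ) * √(L ^ 2 * μ2)))
        = 2 * K * L * √ρ2 * μ2 := by
      rw [Real.sqrt_mul hρ0, Real.sqrt_mul (sq_nonneg L), Real.sqrt_sq hL]
      have s1 : √(K : ℝ) * √(K : ℝ) = K := Real.mul_self_sqrt (Nat.cast_nonneg _)
      have s2 : √μ2 * √μ2 = μ2 := Real.mul_self_sqrt hμ0
      calc √(K : ℝ) * (√ρ2 * √μ2) * (2 * (√(K : ℝ) * (L * √μ2)))
          = 2 * (√(K : ℝ) * √(K : ℝ)) * L * √ρ2 * (√μ2 * √μ2) := by ring
        _ = _ := by rw [s1, s2]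
    linarith
  have hpt : ∀ i j, (Ah - A) i j ^ 2 ≤ 2 * D i j ^ 2 + 2 * G i j ^ 2 := by
    intro i j
    have : (Ah - A) i j = D i j - G i j := by
      by_cases h : i ∈ R ∨ j ∈ C
      · simp [hD, hG, hB, h]
      · simp [hD, hG, hB, h]
    rw [this]
    nlinarith [sq_nonneg (D i j + G i j)]
  calc ∑ x, ∑ y, (Ah - A) x y ^ 2 ≤ ∑ x, ∑ y, (2 * D x y ^ 2 + 2 * G x y ^ 2) :=
        Finset.sum_le_sum fun i _ => Finset.sum_le_sum fun j _ => hpt i j
    _ = 2 * ∑ x, ∑ y, D x y ^ 2 + 2 * ∑ x, ∑ y, G x y ^ 2 := by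
        simp only [Finset.sum_add_distrib, Finset.mul_sum]
    _ ≤ 2 * (2 * K * L * √ρ2 * μ2) + 2 * (ρ2 * μ2) := by linarith
    _ = (4 * K * L * √ρ2 + 2 * ρ2) * μ2 := by ring

end Pool.Agent.MPafaa81
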