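import Pool.Agent.MPafaa81.Dual

set_option autoImplicit false

namespace Pool.Agent.MPafaa81

open Finset

/-- A balanced, normalised form of the singular value decomposition. -/
structure Balanced {m n : ℕ} (Z : Matrix (Fin m) (Fin n) ℝ) (a : Fin n → Fin m → ℝ)
    (b : Fin n → Fin n → ℝ) (t : Fin n → ℝ) : Prop where
  nonneg : ∀ j, 0 ≤ t j
  eq : ∀ x y, Z x y = ∑ j, a j x * b j y
  row : ∀ j, ∑ x, a j x ^ 2 = m * t j
  col : ∀ j, ∑ y, b j y ^ 2 = n * t j
  tot : (∑ j, t j) * √((m : ℝ) * n) = nuclearNorm Z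
  sq : ∀ J : Finset (Fin n),
    ∑ x, ∑ y, (∑ j ∈ J, a j x * b j y) ^ 2 = (m * n) * ∑ j ∈ J, t j ^ 2

theorem exists_balanced {m n : ℕ} (hm : 0 < m) (hn : 0 < n) (Z : Matrix (Fin m) (Fin n) ℝ) :
    ∃ a b t, Balanced Z a b t := by
  obtain ⟨v, w, s, hs, hv, hw, hA, hN, _⟩ := svd Z
  have hm' : (0 : ℝ) < m := by exact_mod_cast hm
  have hn' : (0 : ℝ) < n := by exact_mod_cast hn
  set N : ℝ := √((m : ℝ) * n) with hNdef
  have hN0 : 0 < N := Real.sqrt_pos.mpr (by positivity)
  have hNN : N * N = m * n := Real.mul_self_sqrt (by positivity)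
  set p : ℝ := √(m / N) with hp
  set q : ℝ := √(n / N) with hq
  have hpp : p ^ 2 = m / N := Real.sq_sqrt (by positivity)
  have hqq : q ^ 2 = n / N := Real.sq_sqrt (by positivity)
  have hpq : p * q = 1 := by
    rw [hp, hq, ← Real.sqrt_mul (by positivity)]
    rw [show (m : ℝ) / N * (n / N) = (m * n) / (N * N) by field_simp, hNN, div_self (by positivity)]
    exact Real.sqrt_one
  have hw0 : ∀ j, s j = 0 → ∀ x, w j x = 0 := by
    intro j hj x
    have h := hw j j
    simp only [if_true, hj] at h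
    have h2 := (Finset.sum_eq_zero_iff_of_nonneg (fun x _ => mul_self_nonneg (w j x))).mp
      (by rw [h]; norm_num) x (Finset.mem_univ x)
    exact mul_self_eq_zero.mp h2
  set a : Fin n → Fin m → ℝ := fun j x => p * (w j x / √(s j)) with ha
  set b : Fin n → Fin n → ℝ := fun j y => q * (√(s j) * v j y) with hb
  have hab : ∀ j x y, a j x * b j y = w j x * v j y := by
    intro j x y
    by_cases h0 : s j = 0
    · simp [ha, hb, h0, hw0 j h0 x]
    · have hpos : 0 < s j := lt_of_le_of_ne (hs j) (Ne.symm h0)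
      have hsq : 0 < √(s j) := Real.sqrt_pos.mpr hpos
      calc a j x * b j y = (p * q) * ((w j x / √(s j) * √(s j)) * v j y) := by
            simp only [ha, hb]; ring
        _ = w j x * v j y := by
            rw [hpq, div_mul_cancel₀ _ hsq.ne', one_mul]
  refine ⟨a, b, fun j => s j / N, ⟨?_, ?_, ?_, ?_, ?_, ?_⟩⟩
  · intro j; exact div_nonneg (hs j) hN0.le
  · intro x y
    rw [hA]
    exact Finset.sum_congr rfl fun j _ => (hab j x y).symm
  · intro j
    have h1 : ∑ x, a j x ^ 2 = p ^ 2 * ((∑ x, w j x * w j x) / (√(s j)) ^ 2) := by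
      rw [Finset.sum_div, Finset.mul_sum]
      refine Finset.sum_congr rfl fun x _ => ?_
      simp only [ha]; ring
    rw [h1, hw, hpp, Real.sq_sqrt (hs j)]
    by_cases h0 : s j = 0
    · simp [h0]
    · simp only [if_true]; field_simp
  · intro j
    have h1 : ∑ y, b j y ^ 2 = q ^ 2 * ((√(s j)) ^ 2 * ∑ y, v j y * v j y) := by
      rw [Finset.mul_sum, Finset.mul_sum]
      refine Finset.sum_congr rfl fun x _ => ?_
      simp only [hb]; ring
    rw [h1, hv, hqq, Real.sq_sqrt (hs j)]
    simp only [if_true]; field_simp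
  · rw [hN, Finset.sum_mul]
    refine Finset.sum_congr rfl fun j _ => ?_
    exact div_mul_cancel₀ _ hN0.ne'
  · intro J
    have h1 : ∑ x, ∑ y, (∑ j ∈ J, a j x * b j y) ^ 2
        = ∑ x, ∑ y, (∑ j, (if j ∈ J then w j x else 0) * v j y)
            * (∑ j, (if j ∈ J then w j x else 0) * v j y) := by
      refine Finset.sum_congr rfl fun x _ => Finset.sum_congr rfl fun y _ => ?_
      rw [pow_two]
      have : ∑ j ∈ J, a j x * b j y = ∑ j, (if j ∈ J then w j x else 0) * v j y := by
        rw [← Finset.sum_filter_add_sum_filter_not Finset.univ (· ∈ J)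
          (fun j => (if j ∈ J then w j x else 0) * v j y)]
        have z : ∑ j ∈ univ.filter (fun j => ¬ j ∈ J), (if j ∈ J then w j x else 0) * v j y = 0 := by
          refine Finset.sum_eq_zero fun j hj => ?_
          rw [Finset.mem_filter] at hj
          simp [hj.2]
        rw [z, add_zero]
        have : univ.filter (· ∈ J) = J := by ext j; simp
        rw [this]
        refine Finset.sum_congr rfl fun j hj => ?_
        rw [hab]; simp [hj]
      rw [this]
    rw [h1, sum_outer v hv]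
    rw [Finset.mul_sum]
    have h2 : ∀ i, ∑ x, (if i ∈ J then w i x else 0) * (if i ∈ J then w i x else 0)
        = if i ∈ J then s i ^ 2 else 0 := by
      intro i
      by_cases hi : i ∈ J
      · simp only [hi, if_true]
        have := hw i i
        simpa using this
      · simp [hi]
    rw [Finset.sum_congr rfl fun i _ => h2 i]
    rw [Finset.sum_ite_mem, Finset.univ_inter]
    refine Finset.sum_congr rfl fun j _ => ?_
    rw [div_pow, sq N, hNN]
    field_simp

/-- Markov's inequality for finite sums. -/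
theorem card_mul_le {ι : Type*} [Fintype ι] (f : ι → ℝ) (hf : ∀ i, 0 ≤ f i) (τ : ℝ) :
    ((univ.filter fun i => τ < f i).card : ℝ) * τ ≤ ∑ i, f i := by
  calc ((univ.filter fun i => τ < f i).card : ℝ) * τ
      = ∑ i ∈ univ.filter (fun i => τ < f i), τ := by rw [Finset.sum_const, nsmul_eq_mul]
    _ ≤ ∑ i ∈ univ.filter (fun i => τ < f i), f i :=
        Finset.sum_le_sum fun i hi => (Finset.mem_filter.mp hi).2.le
    _ ≤ ∑ i, f i := Finset.sum_le_sum_of_subset_of_nonneg (Finset.filter_subset _ _)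
        fun i _ _ => hf i

theorem abs_sum_mul_le {ι : Type*} (J : Finset ι) (f g : ι → ℝ) (A B : ℝ)
    (hA : ∑ j ∈ J, f j ^ 2 ≤ A) (hB : ∑ j ∈ J, g j ^ 2 ≤ B) :
    |∑ j ∈ J, f j * g j| ≤ √A * √B := by
  have h1 := Real.sum_mul_le_sqrt_mul_sqrt J f g
  have h2 := Real.sum_mul_le_sqrt_mul_sqrt J (fun j => - f j) g
  have h3 : √(∑ j ∈ J, f j ^ 2) * √(∑ j ∈ J, g j ^ 2) ≤ √A * √B :=
    mul_le_mul (Real.sqrt_le_sqrt hA) (Real.sqrt_le_sqrt hB) (Real.sqrt_nonneg _)
      (Real.sqrt_nonneg _)
  have h4 : ∑ j ∈ J, - f j * g j = - ∑ j ∈ J, f j * g j := by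
    rw [← Finset.sum_neg_distrib]
    exact Finset.sum_congr rfl fun j _ => by ring
  rw [h4] at h2
  simp only [neg_sq] at h2
  rw [abs_le]
  constructor <;> linarith

end Pool.Agent.MPafaa81
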