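import Pool.Agent.MPafaa81.Final

set_option autoImplicit false

namespace Pool.Agent.MPafaa81

open Finset Filter Topology
open scoped Matrix

theorem frobBar_nonneg {m n : ℕ} (A : Matrix (Fin m) (Fin n) ℝ) : 0 ≤ frobBar A :=
  Real.sqrt_nonneg _

theorem frobBar_le_of_abs_le {m n : ℕ} (A : Matrix (Fin m) (Fin n) ℝ) (L : ℝ) (hL : 0 ≤ L)
    (h : ∀ i j, |A i j| ≤ L) : frobBar A ≤ L := by
  rw [frobBar]
  apply Real.sqrt_le_iff.mpr
  refine ⟨hL, ?_⟩
  rcases Nat.eq_zero_or_pos m with hm | hm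
  · subst hm; simp; positivity
  rcases Nat.eq_zero_or_pos n with hn | hn
  · subst hn; simp; positivity
  have hm' : (0 : ℝ) < m := by exact_mod_cast hm
  have hn' : (0 : ℝ) < n := by exact_mod_cast hn
  rw [div_le_iff₀ (by positivity)]
  calc ∑ i, ∑ j, A i j ^ 2 ≤ ∑ i : Fin m, ∑ j : Fin n, L ^ 2 := by
        refine Finset.sum_le_sum fun i _ => Finset.sum_le_sum fun j _ => ?_
        rw [← sq_abs]
        have := h i j
        gcongr
    _ = L ^ 2 * (m * n) := by
        simp only [Finset.sum_const, Finset.card_univ, Fintype.card_fin, nsmul_eq_mul]; ring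

/-- The indicator matrix of a rectangle. -/
noncomputable def rectMat {m n : ℕ} (S : Finset (Fin m)) (T : Finset (Fin n)) :
    Matrix (Fin m) (Fin n) ℝ :=
  Matrix.vecMulVec (fun i => if i ∈ S then 1 else 0) (fun j => if j ∈ T then 1 else 0)

theorem rectMat_apply {m n : ℕ} (S : Finset (Fin m)) (T : Finset (Fin n)) (i : Fin m)
    (j : Fin n) : rectMat S T i j = if i ∈ S ∧ j ∈ T then 1 else 0 := by
  rw [rectMat, Matrix.vecMulVec_apply]
  by_cases hi : i ∈ S <;> by_cases hj : j ∈ T <;> simp [hi, hj]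

theorem rank_rectMat {m n : ℕ} (S : Finset (Fin m)) (T : Finset (Fin n)) :
    (rectMat S T).rank ≤ 1 := Matrix.rank_vecMulVec_le _ _

theorem abs_rectMat_le {m n : ℕ} (S : Finset (Fin m)) (T : Finset (Fin n)) (i : Fin m)
    (j : Fin n) : |rectMat S T i j| ≤ 1 := by
  rw [rectMat_apply]; split_ifs <;> simp

theorem sum_rectMat_mul {m n : ℕ} (S : Finset (Fin m)) (T : Finset (Fin n))
    (P : Matrix (Fin m) (Fin n) ℝ) (hP : IsBinary P) :
    ∑ i, ∑ j, (rectMat S T i j * P i j) ^ 2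
      = (((S ×ˢ T).filter fun p => P p.1 p.2 ≠ 0).card : ℝ) := by
  classical
  rw [← Fintype.sum_prod_type (fun p : Fin m × Fin n => (rectMat S T p.1 p.2 * P p.1 p.2) ^ 2)]
  rw [Finset.card_filter]
  push_cast
  rw [← Finset.sum_subset (Finset.subset_univ (S ×ˢ T))]
  · refine Finset.sum_congr rfl fun p hp => ?_
    rw [Finset.mem_product] at hp
    rw [rectMat_apply]
    rcases hP p.1 p.2 with h | h
    · simp [h]
    · simp [h, hp.1, hp.2]
  · intro p _ hp
    rw [Finset.mem_product] at hp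
    rw [rectMat_apply]
    simp [hp]

theorem sum_rectMat {m n : ℕ} (S : Finset (Fin m)) (T : Finset (Fin n)) :
    ∑ i, ∑ j, (rectMat S T i j) ^ 2 = (S.card : ℝ) * T.card := by
  classical
  rw [← Fintype.sum_prod_type (fun p : Fin m × Fin n => (rectMat S T p.1 p.2) ^ 2)]
  rw [← Finset.sum_subset (Finset.subset_univ (S ×ˢ T))]
  · have : ∀ p ∈ S ×ˢ T, (rectMat S T p.1 p.2) ^ 2 = 1 := by
      intro p hp
      rw [Finset.mem_product] at hp
      rw [rectMat_apply]
      simp [hp.1, hp.2]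
    rw [Finset.sum_congr rfl this, Finset.sum_const, Finset.card_product, nsmul_eq_mul]
    push_cast; ring
  · intro p _ hp
    rw [Finset.mem_product] at hp
    rw [rectMat_apply]
    simp [hp]

/-- Stable recovery (only used for rank one indicators) gives a positive density of revealed
entries in every large rectangle. -/
theorem rect_density (m n : ℕ → ℕ) (P : ∀ k, Matrix (Fin (m k)) (Fin (n k)) ℝ)
    (hP : ∀ k, IsBinary (P k)) (hSR : AdmitsStableRecovery m n P) (e : ℝ) (he : 0 < e) :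
    ∃ δ : ℝ, 0 < δ ∧ ∀ᶠ k in atTop, ∀ (S : Finset (Fin (m k))) (T : Finset (Fin (n k))),
      e * ((m k : ℝ) * n k) ≤ (S.card : ℝ) * T.card →
      δ * ((m k : ℝ) * n k) ≤ (((S ×ˢ T).filter fun p => P k p.1 p.2 ≠ 0).card : ℝ) := by
  classical
  obtain ⟨δ, hδ, hrec⟩ := hSR 1 1 (√e / 2) one_pos (by have := Real.sqrt_pos.mpr he; positivity)
  refine ⟨δ ^ 2, by positivity, ?_⟩
  by_contra hcon
  rw [Filter.not_eventually] at hcon
  set bad : ∀ k, Finset (Fin (m k)) → Finset (Fin (n k)) → Prop := fun k S T =>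
    e * ((m k : ℝ) * n k) ≤ (S.card : ℝ) * T.card ∧
    (((S ×ˢ T).filter fun p => P k p.1 p.2 ≠ 0).card : ℝ) < δ ^ 2 * ((m k : ℝ) * n k) with hbad
  have hfreq : ∃ᶠ k in atTop, ∃ S T, bad k S T := by
    refine hcon.mono fun k hk => ?_
    push Not at hk
    obtain ⟨S, T, h1, h2⟩ := hk
    exact ⟨S, T, h1, h2⟩
  set A : ∀ k, Matrix (Fin (m k)) (Fin (n k)) ℝ := fun k =>
    if h : ∃ S T, bad k S T then rectMat h.choose h.choose_spec.choose else 0 with hA
  have hA1 : ∀ k (h : ∃ S T, bad k S T), A k = rectMat h.choose h.choose_spec.choose := by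
    intro k h; simp only [hA, h, dif_pos]
  have hA0 : ∀ k, (¬ ∃ S T, bad k S T) → A k = 0 := by
    intro k h; simp only [hA, h, dif_neg, not_false_eq_true]
  have hrank : ∀ k, (A k).rank ≤ 1 ∧ (0 : Matrix (Fin (m k)) (Fin (n k)) ℝ).rank ≤ 1 := by
    intro k
    refine ⟨?_, by rw [Matrix.rank_zero]; omega⟩
    by_cases h : ∃ S T, bad k S T
    · rw [hA1 k h]; exact rank_rectMat _ _
    · rw [hA0 k h, Matrix.rank_zero]; omega
  have habs : ∀ k i j, |A k i j| ≤ 1 ∧ |(0 : Matrix (Fin (m k)) (Fin (n k)) ℝ) i j| ≤ 1 := by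
    intro k i j
    refine ⟨?_, by simp⟩
    by_cases h : ∃ S T, bad k S T
    · rw [hA1 k h]; exact abs_rectMat_le _ _ _ _
    · rw [hA0 k h]; simp
  have hsmall : ∀ k, frobBar ((A k - 0) ⊙ P k) ≤ δ := by
    intro k
    rw [sub_zero]
    by_cases h : ∃ S T, bad k S T
    · rw [hA1 k h]
      have hb := h.choose_spec.choose_spec
      set S := h.choose
      set T := h.choose_spec.choose
      rw [frobBar]
      apply Real.sqrt_le_iff.mpr
      refine ⟨hδ.le, ?_⟩
      have hpos : (0 : ℝ) < (m k : ℝ) * n k := by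
        have h1 : (0 : ℝ) ≤ (((S ×ˢ T).filter fun p => P k p.1 p.2 ≠ 0).card : ℝ) :=
          Nat.cast_nonneg _
        have h2 := lt_of_le_of_lt h1 hb.2
        exact pos_of_mul_pos_right h2 (by positivity)
      rw [div_le_iff₀ hpos]
      have e1 : ∑ i, ∑ j, ((rectMat S T) ⊙ P k) i j ^ 2
          = (((S ×ˢ T).filter fun p => P k p.1 p.2 ≠ 0).card : ℝ) := by
        rw [← sum_rectMat_mul S T (P k) (hP k)]
        rfl
      rw [e1]
      exact hb.2.le
    · rw [hA0 k h, frobBar]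
      simp [hδ.le]
  have hbdd : IsBoundedUnder (· ≤ ·) atTop (fun k => frobBar (A k - 0)) := by
    refine isBoundedUnder_of ⟨1, fun k => ?_⟩
    rw [sub_zero]
    exact frobBar_le_of_abs_le _ _ zero_le_one fun i j => (habs k i j).1
  have h1 : limsup (fun k => frobBar ((A k - 0) ⊙ P k)) atTop ≤ δ := by
    refine limsup_le_of_le ?_ (Eventually.of_forall hsmall)
    exact isCoboundedUnder_le_of_le atTop (x := 0) fun k => frobBar_nonneg _
  have h2 := hrec A (fun k => 0) hrank habs h1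
  have h3 : √e ≤ limsup (fun k => frobBar (A k - 0)) atTop := by
    refine le_limsup_of_frequently_le ?_ hbdd
    refine hfreq.mono fun k h => ?_
    rw [sub_zero, hA1 k h]
    have hb := h.choose_spec.choose_spec
    set S := h.choose
    set T := h.choose_spec.choose
    have hpos : (0 : ℝ) < (m k : ℝ) * n k := by
      have h1 : (0 : ℝ) ≤ (((S ×ˢ T).filter fun p => P k p.1 p.2 ≠ 0).card : ℝ) :=
        Nat.cast_nonneg _
      have h2 := lt_of_le_of_lt h1 hb.2
      exact pos_of_mul_pos_right h2 (by positivity)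
    rw [frobBar, sum_rectMat]
    apply Real.sqrt_le_sqrt
    rw [le_div_iff₀ hpos]
    exact hb.1
  have h4 : 0 < √e := Real.sqrt_pos.mpr he
  linarith

end Pool.Agent.MPafaa81
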