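import Pool.Agent.MPafaa81.Key

set_option autoImplicit false

namespace Pool.Agent.MPafaa81

open Finset

/-- Two rows (columns) in the same cell give nearly the same value. -/
theorem cell_close {ι : Type*} (J : Finset ι) (f f' g g' : ι → ℝ) (h M : ℝ) (hh : 0 ≤ h)
    (hM : 0 ≤ M) (r : ℕ) (hr : J.card ≤ r)
    (hf : ∀ j ∈ J, |f j - f' j| ≤ h) (hg : ∀ j ∈ J, |g j - g' j| ≤ h)
    (hg' : ∀ j ∈ J, |g j| ≤ M) (hf' : ∀ j ∈ J, |f' j| ≤ M) :
    |∑ j ∈ J, f j * g j - ∑ j ∈ J, f' j * g' j| ≤ 2 * h * M * r := by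
  rw [← Finset.sum_sub_distrib]
  calc |∑ j ∈ J, (f j * g j - f' j * g' j)|
      ≤ ∑ j ∈ J, |f j * g j - f' j * g' j| := Finset.abs_sum_le_sum_abs _ _
    _ ≤ ∑ j ∈ J, 2 * h * M := by
        refine Finset.sum_le_sum fun j hj => ?_
        have e1 : f j * g j - f' j * g' j = (f j - f' j) * g j + f' j * (g j - g' j) := by ring
        rw [e1]
        refine (abs_add_le _ _).trans ?_
        rw [abs_mul, abs_mul]
        have h1 : |f j - f' j| * |g j| ≤ h * M :=
          mul_le_mul (hf j hj) (hg' j hj) (abs_nonneg _) hh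
        have h2 : |f' j| * |g j - g' j| ≤ M * h :=
          mul_le_mul (hf' j hj) (hg j hj) (abs_nonneg _) hM
        linarith
    _ = J.card * (2 * h * M) := by rw [Finset.sum_const, nsmul_eq_mul]
    _ ≤ r * (2 * h * M) := by
        have : (J.card : ℝ) ≤ r := by exact_mod_cast hr
        exact mul_le_mul_of_nonneg_right this (by positivity)
    _ = 2 * h * M * r := by ring

/-- The set of integer cells. -/
noncomputable def cells {ι : Type*} [Fintype ι] [DecidableEq ι] (J : Finset ι) (W : ℕ) : Finset (ι → ℤ) :=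
  Fintype.piFinset fun j => if j ∈ J then Finset.Icc (-(W : ℤ)) W else {0}

theorem card_cells {ι : Type*} [Fintype ι] [DecidableEq ι] (J : Finset ι) (W : ℕ) :
    (cells J W).card = (2 * W + 1) ^ J.card := by
  rw [cells, Fintype.card_piFinset]
  have : ∀ j : ι, (if j ∈ J then Finset.Icc (-(W : ℤ)) W else {0}).card
      = if j ∈ J then (2 * W + 1) else 1 := by
    intro j
    split_ifs with h
    · rw [Int.card_Icc]; omega
    · simp
  rw [Finset.prod_congr rfl fun j _ => this j, Finset.prod_ite]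
  simp

theorem cell_mem {ι : Type*} [Fintype ι] [DecidableEq ι] (J : Finset ι) (W : ℕ) (f : ι → ℝ)
    (h M : ℝ) (hh : 0 < h) (hW : M / h + 1 ≤ W) (hf : ∀ j ∈ J, |f j| ≤ M) :
    (fun j => if j ∈ J then ⌊f j / h⌋ else 0) ∈ cells J W := by
  rw [cells, Fintype.mem_piFinset]
  intro j
  by_cases hj : j ∈ J
  · simp only [hj, if_true, Finset.mem_Icc]
    have h1 := abs_le.mp (hf j hj)
    have h2 : f j / h ≤ M / h := div_le_div_of_nonneg_right h1.2 hh.le
    have h3 : -(M / h) ≤ f j / h := by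
      rw [← neg_div]; exact div_le_div_of_nonneg_right h1.1 hh.le
    constructor
    · rw [Int.le_floor]; push_cast; linarith
    · have : ((⌊f j / h⌋ : ℤ) : ℝ) ≤ ((W : ℤ) : ℝ) := by
        refine (Int.floor_le _).trans ?_
        push_cast; linarith
      exact_mod_cast this
  · simp [hj]

theorem cell_eq_close {ι : Type*} (J : Finset ι) [DecidableEq ι] (f f' : ι → ℝ)
    (h : ℝ) (hh : 0 < h)
    (he : (fun j => if j ∈ J then ⌊f j / h⌋ else 0) = fun j => if j ∈ J then ⌊f' j / h⌋ else 0) :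
    ∀ j ∈ J, |f j - f' j| ≤ h := by
  intro j hj
  have h1 := congrFun he j
  simp only [hj, if_true] at h1
  have h2 := Int.abs_sub_lt_one_of_floor_eq_floor h1
  rw [← sub_div, abs_div, abs_of_pos hh, div_lt_one hh] at h2
  exact h2.le

theorem three_sq (x y z : ℝ) : (x + y + z) ^ 2 ≤ 3 * (x ^ 2 + y ^ 2 + z ^ 2) := by
  nlinarith [sq_nonneg (x - y), sq_nonneg (x - z), sq_nonneg (y - z)]

theorem step (C ε : ℝ) (hC : 0 < C) (hε : 0 < ε) (δ : ℝ → ℝ) (hδ : ∀ e, 0 < e → 0 < δ e)
    (lam : ℝ) (hlam : 0 < lam) :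
    ∃ e lam' : ℝ, 0 < e ∧ 0 < lam' ∧ lam' ≤ lam ∧ ∀ (m n : ℕ) (_ : 0 < m) (_ : 0 < n)
      (P Z : Matrix (Fin m) (Fin n) ℝ) (a : Fin n → Fin m → ℝ) (b : Fin n → Fin n → ℝ)
      (t : Fin n → ℝ), Balanced Z a b t → (∀ i j, P i j ≠ 0 → Z i j = 0) →
      (∀ (S : Finset (Fin m)) (T : Finset (Fin n)), e * (m * n) ≤ (S.card : ℝ) * T.card →
        δ e * (m * n) ≤ (((S ×ˢ T).filter fun p => P p.1 p.2 ≠ 0).card : ℝ)) →
      ∑ j, t j ≤ C →
      ∑ j ∈ univ.filter (fun j => lam' < t j ∧ t j ≤ lam), t j ≤ ε ^ 2 / 24 →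
      ∃ (R : Finset (Fin m)) (C' : Finset (Fin n)), (R.card : ℝ) ≤ ε * m ∧ (C'.card : ℝ) ≤ ε * n ∧
        ∑ x, ∑ y, (if x ∈ R ∨ y ∈ C' then 0 else Z x y) ^ 2 ≤ ε ^ 2 * (m * n) := by
  classical
  set τ : ℝ := ε / 6 with hτ
  have hτ0 : 0 < τ := by positivity
  set M : ℝ := √(4 * C / ε) with hM
  have hM0 : 0 < M := Real.sqrt_pos.mpr (by positivity)
  have hM2 : M ^ 2 = 4 * C / ε := Real.sq_sqrt (by positivity)
  set r : ℕ := ⌈C / lam⌉₊ with hr
  set h : ℝ := τ / (2 * M * (r + 1)) with hh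
  have hh0 : 0 < h := by positivity
  set W : ℕ := ⌈M / h⌉₊ + 1 with hW
  have hW1 : M / h + 1 ≤ W := by
    rw [hW]; push_cast; linarith [Nat.le_ceil (M / h)]
  set N1 : ℕ := (2 * W + 1) ^ r with hN1
  have hN1pos : 0 < N1 := by positivity
  set e : ℝ := (τ ^ 2 / M ^ 4) / (N1 : ℝ) ^ 2 with he
  have he0 : 0 < e := by positivity
  have hδe := hδ e he0
  set lam' : ℝ := min lam (min (τ ^ 2 / C) (δ e * τ ^ 2 / (2 * C))) with hlam'
  have hlam'0 : 0 < lam' := by
    rw [hlam']; refine lt_min hlam (lt_min (by positivity) (by positivity))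
  have hl1 : lam' ≤ lam := min_le_left _ _
  have hl2 : lam' * C ≤ τ ^ 2 := by
    have : lam' ≤ τ ^ 2 / C := (min_le_right _ _).trans (min_le_left _ _)
    rwa [le_div_iff₀ hC] at this
  have hl3 : lam' * C ≤ δ e * τ ^ 2 / 2 := by
    have : lam' ≤ δ e * τ ^ 2 / (2 * C) := (min_le_right _ _).trans (min_le_right _ _)
    rw [le_div_iff₀ (by positivity)] at this
    linarith
  refine ⟨e, lam', he0, hlam'0, hl1, ?_⟩
  intro m n hm hn P Z a b t hB hPZ hrect htC hmid
  have hm' : (0 : ℝ) < m := by exact_mod_cast hm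
  have hn' : (0 : ℝ) < n := by exact_mod_cast hn
  have hmn : (0 : ℝ) < m * n := by positivity
  set J1 : Finset (Fin n) := univ.filter (fun j => lam < t j) with hJ1
  set J2 : Finset (Fin n) := univ.filter (fun j => lam' < t j ∧ t j ≤ lam) with hJ2
  set J3 : Finset (Fin n) := univ.filter (fun j => t j ≤ lam') with hJ3
  -- the three parts
  set F1 : Fin m → Fin n → ℝ := fun x y => ∑ j ∈ J1, a j x * b j y with hF1
  set F2 : Fin m → Fin n → ℝ := fun x y => ∑ j ∈ J2, a j x * b j y with hF2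
  set F3 : Fin m → Fin n → ℝ := fun x y => ∑ j ∈ J3, a j x * b j y with hF3
  have hsplit : ∀ x y, Z x y = F1 x y + F2 x y + F3 x y := by
    intro x y
    rw [hB.eq]
    have h12 : Disjoint J1 J2 := by
      rw [Finset.disjoint_left]; intro j h1 h2
      rw [hJ1, Finset.mem_filter] at h1; rw [hJ2, Finset.mem_filter] at h2
      linarith [h1.2, h2.2.2]
    have h123 : Disjoint (J1 ∪ J2) J3 := by
      rw [Finset.disjoint_left]; intro j h1 h3
      rw [hJ3, Finset.mem_filter] at h3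
      rw [Finset.mem_union, hJ1, hJ2, Finset.mem_filter, Finset.mem_filter] at h1
      rcases h1 with h1 | h1
      · linarith [h1.2, h3.2]
      · linarith [h1.2.1, h3.2]
    have hu : (univ : Finset (Fin n)) = (J1 ∪ J2) ∪ J3 := by
      ext j
      simp only [Finset.mem_univ, Finset.mem_union, hJ1, hJ2, hJ3, Finset.mem_filter, true_and,
        true_iff]
      by_cases h1 : lam < t j
      · exact Or.inl (Or.inl h1)
      · by_cases h2 : lam' < t j
        · exact Or.inl (Or.inr ⟨h2, not_lt.mp h1⟩)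
        · exact Or.inr (not_lt.mp h2)
    rw [hu, Finset.sum_union h123, Finset.sum_union h12]
  have hJ1card : J1.card ≤ r := by
    have h1 : (J1.card : ℝ) * lam ≤ C := by
      have := card_mul_le t hB.nonneg lam
      linarith
    have h2 : (J1.card : ℝ) ≤ C / lam := by rwa [le_div_iff₀ hlam]
    have h3 : (J1.card : ℝ) ≤ (r : ℝ) := h2.trans (Nat.le_ceil _)
    exact_mod_cast h3
  -- bad rows
  set R : Finset (Fin m) :=
    univ.filter (fun x => M ^ 2 < ∑ j, a j x ^ 2) ∪ univ.filter (fun x => τ < ∑ j ∈ J2, a j x ^ 2)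
    with hR
  set C' : Finset (Fin n) :=
    univ.filter (fun y => M ^ 2 < ∑ j, b j y ^ 2) ∪ univ.filter (fun y => τ < ∑ j ∈ J2, b j y ^ 2)
    with hC'
  have hRcard : (R.card : ℝ) ≤ ε * m := by
    have h1 : ((univ.filter (fun x => M ^ 2 < ∑ j, a j x ^ 2)).card : ℝ) * M ^ 2 ≤ m * C := by
      refine (card_mul_le _ (fun x => Finset.sum_nonneg fun j _ => sq_nonneg _) _).trans ?_
      rw [Finset.sum_comm, Finset.sum_congr rfl fun j _ => hB.row j, ← Finset.mul_sum]
      exact mul_le_mul_of_nonneg_left htC hm'.le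
    have h2 : ((univ.filter (fun x => τ < ∑ j ∈ J2, a j x ^ 2)).card : ℝ) * τ
        ≤ m * (ε ^ 2 / 24) := by
      refine (card_mul_le _ (fun x => Finset.sum_nonneg fun j _ => sq_nonneg _) _).trans ?_
      rw [Finset.sum_comm, Finset.sum_congr rfl fun j _ => hB.row j, ← Finset.mul_sum]
      exact mul_le_mul_of_nonneg_left hmid hm'.le
    have h3 : ((univ.filter (fun x => M ^ 2 < ∑ j, a j x ^ 2)).card : ℝ) ≤ m * (ε / 4) := by
      rw [hM2, mul_div_assoc', div_le_iff₀ hε] at h1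
      have : ((univ.filter (fun x => M ^ 2 < ∑ j, a j x ^ 2)).card : ℝ) * (4 * C)
          ≤ (m * (ε / 4)) * (4 * C) := by rw [hM2]; linarith
      exact le_of_mul_le_mul_right this (by positivity)
    have h4 : ((univ.filter (fun x => τ < ∑ j ∈ J2, a j x ^ 2)).card : ℝ) ≤ m * (ε / 4) := by
      have : ((univ.filter (fun x => τ < ∑ j ∈ J2, a j x ^ 2)).card : ℝ) * τ
          ≤ (m * (ε / 4)) * τ := by
        refine h2.trans (le_of_eq ?_); rw [hτ]; ring
      exact le_of_mul_le_mul_right this hτ0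
    have h5 : (R.card : ℝ) ≤ ((univ.filter (fun x => M ^ 2 < ∑ j, a j x ^ 2)).card : ℝ)
        + ((univ.filter (fun x => τ < ∑ j ∈ J2, a j x ^ 2)).card : ℝ) := by
      exact_mod_cast Finset.card_union_le _ _
    nlinarith
  have hC'card : (C'.card : ℝ) ≤ ε * n := by
    have h1 : ((univ.filter (fun y => M ^ 2 < ∑ j, b j y ^ 2)).card : ℝ) * M ^ 2 ≤ n * C := by
      refine (card_mul_le _ (fun x => Finset.sum_nonneg fun j _ => sq_nonneg _) _).trans ?_
      rw [Finset.sum_comm, Finset.sum_congr rfl fun j _ => hB.col j, ← Finset.mul_sum]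
      exact mul_le_mul_of_nonneg_left htC hn'.le
    have h2 : ((univ.filter (fun y => τ < ∑ j ∈ J2, b j y ^ 2)).card : ℝ) * τ
        ≤ n * (ε ^ 2 / 24) := by
      refine (card_mul_le _ (fun x => Finset.sum_nonneg fun j _ => sq_nonneg _) _).trans ?_
      rw [Finset.sum_comm, Finset.sum_congr rfl fun j _ => hB.col j, ← Finset.mul_sum]
      exact mul_le_mul_of_nonneg_left hmid hn'.le
    have h3 : ((univ.filter (fun y => M ^ 2 < ∑ j, b j y ^ 2)).card : ℝ) ≤ n * (ε / 4) := by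
      rw [hM2, mul_div_assoc', div_le_iff₀ hε] at h1
      have : ((univ.filter (fun y => M ^ 2 < ∑ j, b j y ^ 2)).card : ℝ) * (4 * C)
          ≤ (n * (ε / 4)) * (4 * C) := by rw [hM2]; linarith
      exact le_of_mul_le_mul_right this (by positivity)
    have h4 : ((univ.filter (fun y => τ < ∑ j ∈ J2, b j y ^ 2)).card : ℝ) ≤ n * (ε / 4) := by
      have : ((univ.filter (fun y => τ < ∑ j ∈ J2, b j y ^ 2)).card : ℝ) * τ
          ≤ (n * (ε / 4)) * τ := by
        refine h2.trans (le_of_eq ?_); rw [hτ]; ring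
      exact le_of_mul_le_mul_right this hτ0
    have h5 : (C'.card : ℝ) ≤ ((univ.filter (fun y => M ^ 2 < ∑ j, b j y ^ 2)).card : ℝ)
        + ((univ.filter (fun y => τ < ∑ j ∈ J2, b j y ^ 2)).card : ℝ) := by
      exact_mod_cast Finset.card_union_le _ _
    nlinarith
  -- properties of good rows and columns
  have hgr : ∀ x, x ∉ R → ∑ j, a j x ^ 2 ≤ M ^ 2 ∧ ∑ j ∈ J2, a j x ^ 2 ≤ τ := by
    intro x hx
    rw [hR, Finset.mem_union, not_or, Finset.mem_filter, Finset.mem_filter] at hx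
    constructor
    · by_contra hlt; exact hx.1 ⟨Finset.mem_univ _, not_le.mp hlt⟩
    · by_contra hlt; exact hx.2 ⟨Finset.mem_univ _, not_le.mp hlt⟩
  have hgc : ∀ y, y ∉ C' → ∑ j, b j y ^ 2 ≤ M ^ 2 ∧ ∑ j ∈ J2, b j y ^ 2 ≤ τ := by
    intro y hy
    rw [hC', Finset.mem_union, not_or, Finset.mem_filter, Finset.mem_filter] at hy
    constructor
    · by_contra hlt; exact hy.1 ⟨Finset.mem_univ _, not_le.mp hlt⟩
    · by_contra hlt; exact hy.2 ⟨Finset.mem_univ _, not_le.mp hlt⟩
  have hra : ∀ x, x ∉ R → ∀ j, |a j x| ≤ M := by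
    intro x hx j
    have h1 : a j x ^ 2 ≤ ∑ j, a j x ^ 2 :=
      Finset.single_le_sum (f := fun j => a j x ^ 2) (fun j _ => sq_nonneg _) (Finset.mem_univ j)
    exact abs_le_of_sq_le_sq (h1.trans (hgr x hx).1) hM0.le
  have hcb : ∀ y, y ∉ C' → ∀ j, |b j y| ≤ M := by
    intro y hy j
    have h1 : b j y ^ 2 ≤ ∑ j, b j y ^ 2 :=
      Finset.single_le_sum (f := fun j => b j y ^ 2) (fun j _ => sq_nonneg _) (Finset.mem_univ j)
    exact abs_le_of_sq_le_sq (h1.trans (hgc y hy).1) hM0.le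
  have hF2le : ∀ x y, x ∉ R → y ∉ C' → |F2 x y| ≤ τ := by
    intro x y hx hy
    have := abs_sum_mul_le J2 (fun j => a j x) (fun j => b j y) τ τ (hgr x hx).2 (hgc y hy).2
    rwa [Real.mul_self_sqrt hτ0.le] at this
  have hF1le : ∀ x y, x ∉ R → y ∉ C' → |F1 x y| ≤ M ^ 2 := by
    intro x y hx hy
    have s1 : ∑ j ∈ J1, a j x ^ 2 ≤ M ^ 2 :=
      (Finset.sum_le_sum_of_subset_of_nonneg (Finset.subset_univ _)
        fun i _ _ => sq_nonneg _).trans (hgr x hx).1
    have s2 : ∑ j ∈ J1, b j y ^ 2 ≤ M ^ 2 :=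
      (Finset.sum_le_sum_of_subset_of_nonneg (Finset.subset_univ _)
        fun i _ _ => sq_nonneg _).trans (hgc y hy).1
    have := abs_sum_mul_le J1 (fun j => a j x) (fun j => b j y) _ _ s1 s2
    rwa [Real.mul_self_sqrt (by positivity)] at this
  -- the tail in L2
  have htail : ∑ x, ∑ y, F3 x y ^ 2 ≤ (m * n) * (lam' * C) := by
    rw [hB.sq J3]
    refine mul_le_mul_of_nonneg_left ?_ hmn.le
    calc ∑ j ∈ J3, t j ^ 2 ≤ ∑ j ∈ J3, lam' * t j := by
          refine Finset.sum_le_sum fun j hj => ?_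
          rw [hJ3, Finset.mem_filter] at hj
          rw [sq]; exact mul_le_mul_of_nonneg_right hj.2 (hB.nonneg j)
      _ = lam' * ∑ j ∈ J3, t j := by rw [Finset.mul_sum]
      _ ≤ lam' * C := by
          refine mul_le_mul_of_nonneg_left ?_ hlam'0.le
          exact (Finset.sum_le_sum_of_subset_of_nonneg (Finset.subset_univ _)
            fun i _ _ => hB.nonneg i).trans htC
  -- the set where the main part is large
  set Bd : Finset (Fin m × Fin n) :=
    univ.filter (fun p => p.1 ∉ R ∧ p.2 ∉ C' ∧ 3 * τ < |F1 p.1 p.2|) with hBd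
  have hBdcard : (Bd.card : ℝ) ≤ (τ ^ 2 / M ^ 4) * (m * n) := by
    by_contra hlt
    rw [not_le] at hlt
    have hBne : Bd.Nonempty := by
      rw [← Finset.card_pos]
      have : (0 : ℝ) < Bd.card := lt_of_le_of_lt (by positivity) hlt
      exact_mod_cast this
    set cr : Fin m → (Fin n → ℤ) := fun x j => if j ∈ J1 then ⌊a j x / h⌋ else 0 with hcr
    set cc : Fin n → (Fin n → ℤ) := fun y j => if j ∈ J1 then ⌊b j y / h⌋ else 0 with hcc
    have hmaps : ∀ p ∈ Bd, (cr p.1, cc p.2) ∈ cells J1 W ×ˢ cells J1 W := by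
      intro p hp
      rw [hBd, Finset.mem_filter] at hp
      rw [Finset.mem_product]
      exact ⟨cell_mem J1 W _ h M hh0 hW1 (fun j _ => hra _ hp.2.1 j),
        cell_mem J1 W _ h M hh0 hW1 (fun j _ => hcb _ hp.2.2.1 j)⟩
    have hne : (cells J1 W ×ˢ cells J1 W).Nonempty := by
      obtain ⟨p, hp⟩ := hBne
      exact ⟨_, hmaps p hp⟩
    have hcard_t : ((cells J1 W ×ˢ cells J1 W).card : ℝ) ≤ (N1 : ℝ) ^ 2 := by
      rw [Finset.card_product, card_cells]
      push_cast
      rw [hN1, sq]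
      push_cast
      have h1 : ((2 * (W : ℝ) + 1)) ^ J1.card ≤ (2 * (W : ℝ) + 1) ^ r := by
        apply pow_le_pow_right₀ _ hJ1card
        have : (0 : ℝ) ≤ W := Nat.cast_nonneg _
        linarith
      exact mul_le_mul h1 h1 (by positivity) (by positivity)
    have hcard_t0 : (0 : ℝ) < ((cells J1 W ×ˢ cells J1 W).card : ℝ) := by
      exact_mod_cast Finset.card_pos.mpr hne
    obtain ⟨c, hc, hcle⟩ := Finset.exists_le_card_fiber_of_nsmul_le_card_of_maps_to
      (M := ℝ) (b := (Bd.card : ℝ) / ((cells J1 W ×ˢ cells J1 W).card : ℝ)) hmaps hne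
      (by rw [nsmul_eq_mul, mul_div_cancel₀ _ hcard_t0.ne'])
    set S : Finset (Fin m) := univ.filter (fun x => x ∉ R ∧ cr x = c.1) with hS
    set T : Finset (Fin n) := univ.filter (fun y => y ∉ C' ∧ cc y = c.2) with hT
    have hsub : Bd.filter (fun p => (cr p.1, cc p.2) = c) ⊆ S ×ˢ T := by
      intro p hp
      rw [Finset.mem_filter, hBd, Finset.mem_filter] at hp
      rw [Finset.mem_product, hS, hT, Finset.mem_filter, Finset.mem_filter]
      have := hp.2
      rw [← this]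
      exact ⟨⟨Finset.mem_univ _, hp.1.2.1, rfl⟩, ⟨Finset.mem_univ _, hp.1.2.2.1, rfl⟩⟩
    have hbig : e * (m * n)
        < ((Bd.filter (fun p => (cr p.1, cc p.2) = c)).card : ℝ) := by
      refine lt_of_lt_of_le ?_ hcle
      rw [lt_div_iff₀ hcard_t0]
      calc e * (m * n) * ((cells J1 W ×ˢ cells J1 W).card : ℝ)
          ≤ e * (m * n) * (N1 : ℝ) ^ 2 := by
            exact mul_le_mul_of_nonneg_left hcard_t (by positivity)
        _ = (τ ^ 2 / M ^ 4) * (m * n) := by
            rw [he]; field_simp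
        _ < Bd.card := hlt
    have hST : e * (m * n) ≤ (S.card : ℝ) * T.card := by
      refine hbig.le.trans ?_
      have := Finset.card_le_card hsub
      rw [Finset.card_product] at this
      exact_mod_cast this
    obtain ⟨p0, hp0⟩ : (Bd.filter (fun p => (cr p.1, cc p.2) = c)).Nonempty := by
      rw [← Finset.card_pos]
      have : (0 : ℝ) < ((Bd.filter (fun p => (cr p.1, cc p.2) = c)).card : ℝ) :=
        lt_of_le_of_lt (by positivity) hbig
      exact_mod_cast this
    rw [Finset.mem_filter, hBd, Finset.mem_filter] at hp0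
    obtain ⟨⟨_, hp0R, hp0C, hp0F⟩, hp0c⟩ := hp0
    -- lower bound of the main part on the rectangle
    have hmain : ∀ x ∈ S, ∀ y ∈ T, 2 * τ ≤ |F1 x y| := by
      intro x hx y hy
      rw [hS, Finset.mem_filter] at hx
      rw [hT, Finset.mem_filter] at hy
      have q1 : cr x = cr p0.1 := by rw [hx.2.2, ← hp0c]
      have q2 : cc y = cc p0.2 := by rw [hy.2.2, ← hp0c]
      have k1 := cell_eq_close J1 (fun j => a j x) (fun j => a j p0.1) h hh0 q1
      have k2 := cell_eq_close J1 (fun j => b j y) (fun j => b j p0.2) h hh0 q2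
      have k3 := cell_close J1 (fun j => a j x) (fun j => a j p0.1) (fun j => b j y)
        (fun j => b j p0.2) h M hh0.le hM0.le r hJ1card k1 k2 (fun j _ => hcb y hy.2.1 j)
        (fun j _ => hra p0.1 hp0R j)
      have k4 : 2 * h * M * r ≤ τ := by
        rw [hh]
        have e1 : 2 * (τ / (2 * M * (r + 1))) * M * r = τ * (r / (r + 1)) := by
          field_simp
        rw [e1]
        have e2 : (r : ℝ) / (r + 1) ≤ 1 := by
          rw [div_le_one (by positivity)]; linarith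
        nlinarith
      have k5 : |F1 x y - F1 p0.1 p0.2| ≤ τ := k3.trans k4
      have k6 := abs_sub_abs_le_abs_sub (F1 p0.1 p0.2) (F1 x y)
      rw [abs_sub_comm] at k6
      linarith
    have hPST := hrect S T hST
    -- on the revealed part of the rectangle the tail is large
    have hlarge : ((((S ×ˢ T).filter fun p => P p.1 p.2 ≠ 0).card : ℝ)) * τ ^ 2
        ≤ ∑ x, ∑ y, F3 x y ^ 2 := by
      calc ((((S ×ˢ T).filter fun p => P p.1 p.2 ≠ 0).card : ℝ)) * τ ^ 2
          = ∑ p ∈ (S ×ˢ T).filter (fun p => P p.1 p.2 ≠ 0), τ ^ 2 := by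
            rw [Finset.sum_const, nsmul_eq_mul]
        _ ≤ ∑ p ∈ (S ×ˢ T).filter (fun p => P p.1 p.2 ≠ 0), F3 p.1 p.2 ^ 2 := by
            refine Finset.sum_le_sum fun p hp => ?_
            rw [Finset.mem_filter, Finset.mem_product] at hp
            have hz := hPZ p.1 p.2 hp.2
            rw [hsplit] at hz
            have l1 := hmain p.1 hp.1.1 p.2 hp.1.2
            have hpS := hp.1.1
            have hpT := hp.1.2
            rw [hS, Finset.mem_filter] at hpS
            rw [hT, Finset.mem_filter] at hpT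
            have l2 := hF2le p.1 p.2 hpS.2.1 hpT.2.1
            have l3 : F1 p.1 p.2 = -(F2 p.1 p.2 + F3 p.1 p.2) := by linarith
            rw [l3, abs_neg] at l1
            have l4 := abs_add_le (F2 p.1 p.2) (F3 p.1 p.2)
            have l5 : τ ≤ |F3 p.1 p.2| := by linarith
            rw [← sq_abs (F3 p.1 p.2)]
            gcongr
        _ ≤ ∑ p : Fin m × Fin n, F3 p.1 p.2 ^ 2 :=
            Finset.sum_le_sum_of_subset_of_nonneg (Finset.subset_univ _)
              fun i _ _ => sq_nonneg _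
        _ = ∑ x, ∑ y, F3 x y ^ 2 := Fintype.sum_prod_type _
    have hfin : δ e * (m * n) * τ ^ 2 ≤ (m * n) * (δ e * τ ^ 2 / 2) := by
      calc δ e * (m * n) * τ ^ 2
          ≤ ((((S ×ˢ T).filter fun p => P p.1 p.2 ≠ 0).card : ℝ)) * τ ^ 2 :=
            mul_le_mul_of_nonneg_right hPST (by positivity)
        _ ≤ _ := hlarge
        _ ≤ _ := htail
        _ ≤ _ := mul_le_mul_of_nonneg_left hl3 hmn.le
    have hpos : 0 < (m * n : ℝ) * (δ e * τ ^ 2) := by positivity
    nlinarith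
  refine ⟨R, C', hRcard, hC'card, ?_⟩
  have hpt : ∀ x y, (if x ∈ R ∨ y ∈ C' then 0 else Z x y) ^ 2
      ≤ 3 * (10 * τ ^ 2 + (if (x, y) ∈ Bd then M ^ 4 else 0) + F3 x y ^ 2) := by
    intro x y
    by_cases hxy : x ∈ R ∨ y ∈ C'
    · simp only [hxy, if_true]
      have q1 : (0 : ℝ) ≤ if (x, y) ∈ Bd then M ^ 4 else 0 := by split_ifs <;> positivity
      have q2 := sq_nonneg (F3 x y)
      have q3 := sq_nonneg τ
      linarith
    · simp only [hxy, if_false]
      rw [not_or] at hxy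
      rw [hsplit]
      have g2 := hF2le x y hxy.1 hxy.2
      have g2' : F2 x y ^ 2 ≤ τ ^ 2 := by rw [← sq_abs]; gcongr
      have g1 : F1 x y ^ 2 ≤ 9 * τ ^ 2 + (if (x, y) ∈ Bd then M ^ 4 else 0) := by
        by_cases hb : (x, y) ∈ Bd
        · simp only [hb, if_true]
          have := hF1le x y hxy.1 hxy.2
          have : F1 x y ^ 2 ≤ (M ^ 2) ^ 2 := by rw [← sq_abs]; gcongr
          nlinarith [sq_nonneg τ]
        · simp only [hb, if_false, add_zero]
          rw [hBd, Finset.mem_filter] at hb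
          have : |F1 x y| ≤ 3 * τ := by
            by_contra hc
            exact hb ⟨Finset.mem_univ _, hxy.1, hxy.2, not_le.mp hc⟩
          have : F1 x y ^ 2 ≤ (3 * τ) ^ 2 := by rw [← sq_abs]; gcongr
          linarith
      have g3 := three_sq (F1 x y) (F2 x y) (F3 x y)
      linarith
  calc ∑ x, ∑ y, (if x ∈ R ∨ y ∈ C' then 0 else Z x y) ^ 2
      ≤ ∑ x, ∑ y, 3 * (10 * τ ^ 2 + (if (x, y) ∈ Bd then M ^ 4 else 0) + F3 x y ^ 2) :=
        Finset.sum_le_sum fun x _ => Finset.sum_le_sum fun y _ => hpt x y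
    _ = 3 * ((m * n) * (10 * τ ^ 2) + (Bd.card : ℝ) * M ^ 4 + ∑ x, ∑ y, F3 x y ^ 2) := by
        have e1 : ∑ x : Fin m, ∑ y : Fin n, (if (x, y) ∈ Bd then M ^ 4 else 0)
            = (Bd.card : ℝ) * M ^ 4 := by
          rw [← Fintype.sum_prod_type (fun p : Fin m × Fin n => if p ∈ Bd then M ^ 4 else 0)]
          rw [Finset.sum_ite_mem, Finset.univ_inter, Finset.sum_const, nsmul_eq_mul]
        rw [← e1]
        simp only [← Finset.mul_sum, Finset.sum_add_distrib]
        simp only [Finset.sum_const, Finset.card_univ, Fintype.card_fin, nsmul_eq_mul]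
        ring
    _ ≤ 3 * ((m * n) * (10 * τ ^ 2) + (τ ^ 2 / M ^ 4) * (m * n) * M ^ 4
          + (m * n) * (lam' * C)) := by
        have := mul_le_mul_of_nonneg_right hBdcard (by positivity : (0 : ℝ) ≤ M ^ 4)
        linarith
    _ = 3 * ((m * n) * (11 * τ ^ 2) + (m * n) * (lam' * C)) := by
        field_simp
        ring
    _ ≤ 3 * ((m * n) * (11 * τ ^ 2) + (m * n) * τ ^ 2) := by
        have := mul_le_mul_of_nonneg_left hl2 hmn.le
        linarith
    _ = ε ^ 2 * (m * n) := by rw [hτ]; ring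

end Pool.Agent.MPafaa81
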