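import Pool.Agent.MPafaa81.Defs

set_option autoImplicit false

namespace Pool.Agent.MPafaa81

open scoped Matrix InnerProductSpace
open Finset

/-- Working interface to the singular value decomposition. -/
theorem svd {m n : ℕ} (A : Matrix (Fin m) (Fin n) ℝ) :
    ∃ (v : Fin n → Fin n → ℝ) (w : Fin n → Fin m → ℝ) (s : Fin n → ℝ),
      (∀ j, 0 ≤ s j) ∧
      (∀ i j, ∑ y, v i y * v j y = if i = j then 1 else 0) ∧
      (∀ i j, ∑ x, w i x * w j x = if i = j then s i ^ 2 else 0) ∧
      (∀ x y, A x y = ∑ j, w j x * v j y) ∧
      nuclearNorm A = ∑ j, s j ∧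
      (univ.filter fun j => s j ≠ 0).card = A.rank := by
  classical
  set T : EuclideanSpace ℝ (Fin n) →ₗ[ℝ] EuclideanSpace ℝ (Fin m) := Matrix.toEuclideanLin A
    with hTdef
  have hn : Module.finrank ℝ (EuclideanSpace ℝ (Fin n)) = n := by simp
  have hsym := T.isSymmetric_adjoint_comp_self
  set b := hsym.eigenvectorBasis hn with hb
  refine ⟨fun j y => b j y, fun j x => T (b j) x, fun j => T.singularValues j, ?_, ?_, ?_, ?_, ?_, ?_⟩
  · intro j; exact T.singularValues_nonneg j
  · intro i j
    have h := orthonormal_iff_ite.mp b.orthonormal i j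
    rw [PiLp.inner_apply] at h
    simp only [RCLike.inner_apply, conj_trivial] at h
    rw [← h]
    exact Finset.sum_congr rfl fun y _ => mul_comm _ _
  · intro i j
    have h : ⟪T (b i), T (b j)⟫_ℝ = if i = j then (T.singularValues i) ^ 2 else 0 := by
      rw [← LinearMap.adjoint_inner_left]
      have h1 : (LinearMap.adjoint T) (T (b i)) = (T.adjoint ∘ₗ T) (b i) := rfl
      rw [h1, hsym.apply_eigenvectorBasis hn i, inner_smul_left,
        orthonormal_iff_ite.mp b.orthonormal i j, T.sq_singularValues_fin hn i]
      simp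
    rw [PiLp.inner_apply] at h
    simp only [RCLike.inner_apply, conj_trivial] at h
    rw [← h]
    exact Finset.sum_congr rfl fun y _ => mul_comm _ _
  · intro x y
    have h1 : (EuclideanSpace.single y (1 : ℝ) : EuclideanSpace ℝ (Fin n))
        = ∑ j, (b j y) • b j := by
      conv_lhs => rw [← b.sum_repr (EuclideanSpace.single y (1 : ℝ))]
      refine Finset.sum_congr rfl fun j _ => ?_
      rw [b.repr_apply_apply, EuclideanSpace.inner_single_right]
      simp
    have h2 : (T (EuclideanSpace.single y (1 : ℝ))) x = A x y := by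
      simp [hTdef, Matrix.toLpLin_apply]
    rw [← h2, h1, map_sum]
    simp [mul_comm]
  · rw [nuclearNorm, Finsupp.sum]
    rw [← hTdef]
    rw [Finset.sum_subset (s₂ := Finset.range n)]
    · rw [Finset.sum_range]
    · rw [T.support_singularValues]
      apply Finset.range_subset_range.mpr
      calc Module.finrank ℝ (LinearMap.range T) ≤ Module.finrank ℝ (EuclideanSpace ℝ (Fin n)) :=
            LinearMap.finrank_range_le T
        _ = n := hn
    · intro i _ hi
      exact Finsupp.notMem_support_iff.mp hi
  · have hrank : A.rank = Module.finrank ℝ (LinearMap.range T) := by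
      rw [Matrix.rank_eq_finrank_range_toLin A (EuclideanSpace.basisFun (Fin m) ℝ).toBasis
        (EuclideanSpace.basisFun (Fin n) ℝ).toBasis, ← Matrix.toEuclideanLin_eq_toLin_orthonormal]
    rw [hrank, ← T.card_support_singularValues]
    refine Finset.card_bij (fun (j : Fin n) _ => (j : ℕ)) ?_ ?_ ?_
    · intro j hj
      rw [Finsupp.mem_support_iff]
      exact (Finset.mem_filter.mp hj).2
    · intro i _ j _ h
      exact Fin.ext h
    · intro i hi
      have hlt : i < n := by
        by_contra hge
        rw [Finsupp.mem_support_iff] at hi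
        exact hi (T.singularValues_of_finrank_le (by rw [hn]; omega))
      refine ⟨⟨i, hlt⟩, ?_, rfl⟩
      rw [Finset.mem_filter]
      exact ⟨Finset.mem_univ _, Finsupp.mem_support_iff.mp hi⟩

end Pool.Agent.MPafaa81
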